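import Pool.Agent.P.MP_58728c_al.Defs

namespace Pool.Agent.P.MP_58728c_al

open Function

variable {F A B C : GroupClass}

lemma IsFormation.iso (hF : IsFormation F) {G H : Type} [Group G] [Finite G] [Group H] [Finite H]
    (e : G ≃* H) (h : F G) : F H := hF.2.1 G H ⟨e⟩ h

lemma IsFormation.surj (hF : IsFormation F) {G H : Type} [Group G] [Finite G] [Group H] [Finite H]
    (f : G →* H) (hf : Surjective f) (h : F G) : F H :=
  hF.iso (QuotientGroup.quotientKerEquivOfSurjective f hf) (hF.2.2.1 G f.ker h)

lemma IsFormation.triv (hF : IsFormation F) (H : Type) [Group H] [Finite H] [Subsingleton H] :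
    F H := by
  obtain ⟨G, _, _, h⟩ := hF.1
  exact hF.surj (1 : G →* H) (fun y => ⟨1, Subsingleton.elim _ _⟩) h

lemma exists_residual (hF : IsFormation F) (G : Type) [Group G] [Finite G] :
    ∃ _ : (residual F G).Normal, F (G ⧸ residual F G) := by
  have hne : {N : Subgroup G | ∃ _ : N.Normal, F (G ⧸ N)}.Nonempty := by
    refine ⟨⊤, inferInstance, ?_⟩
    have : Subsingleton (G ⧸ (⊤ : Subgroup G)) := QuotientGroup.subsingleton_quotient_top
    exact hF.triv _
  obtain ⟨N, ⟨hN, hFN⟩, hmin⟩ := (Set.toFinite _).exists_minimal hne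
  have hmem : N ∈ {N : Subgroup G | ∃ _ : N.Normal, F (G ⧸ N)} := ⟨hN, hFN⟩
  have : residual F G = N := by
    apply le_antisymm (sInf_le hmem)
    apply le_sInf
    rintro M ⟨hM, hFM⟩
    have := hmin (y := N ⊓ M) ⟨inferInstance, hF.2.2.2 G N M hFN hFM⟩ inf_le_left
    exact this.trans inf_le_right
  rw [this]
  exact ⟨hN, hFN⟩

instance residual_normal (F : GroupClass) (G : Type) [Group G] [Finite G] :
    (residual F G).Normal := by
  refine ⟨fun n hn g => ?_⟩
  simp only [residual, Subgroup.mem_sInf] at hn ⊢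
  rintro N ⟨hN, h⟩
  exact hN.conj_mem n (hn N ⟨hN, h⟩) g

lemma IsFormation.quot_residual (hF : IsFormation F) (G : Type) [Group G] [Finite G] :
    F (G ⧸ residual F G) := (exists_residual hF G).2

lemma IsFormation.residual_le_ker (hF : IsFormation F) {G H : Type} [Group G] [Finite G] [Group H]
    [Finite H] (f : G →* H) (hf : Surjective f) (h : F H) : residual F G ≤ f.ker :=
  sInf_le ⟨inferInstance, hF.iso (QuotientGroup.quotientKerEquivOfSurjective f hf).symm h⟩

lemma IsFormation.of_residual_le_ker (hF : IsFormation F) {G H : Type} [Group G] [Finite G]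
    [Group H] [Finite H] (f : G →* H) (hf : Surjective f) (h : residual F G ≤ f.ker) : F H := by
  refine hF.surj (QuotientGroup.lift (residual F G) f h) ?_ (hF.quot_residual G)
  intro y
  obtain ⟨x, rfl⟩ := hf y
  exact ⟨x, rfl⟩

lemma IsFormation.iff_residual_eq_bot (hF : IsFormation F) {G : Type} [Group G] [Finite G] :
    F G ↔ residual F G = ⊥ := by
  constructor
  · intro h
    have := hF.residual_le_ker (MonoidHom.id G) surjective_id h
    simpa using this
  · intro h
    exact hF.of_residual_le_ker (MonoidHom.id G) surjective_id (by simp [h])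

/-- closure under subdirect products -/
lemma IsFormation.subdirect (hF : IsFormation F) {G : Type} [Group G] [Finite G] {ι : Type}
    {H : ι → Type} [∀ i, Group (H i)] [∀ i, Finite (H i)] (f : ∀ i, G →* H i)
    (hf : ∀ i, Surjective (f i)) (h : ∀ i, F (H i)) (hsep : ∀ g, (∀ i, f i g = 1) → g = 1) :
    F G := by
  rw [hF.iff_residual_eq_bot, eq_bot_iff]
  intro g hg
  exact hsep g fun i => hF.residual_le_ker (f i) (hf i) (h i) hg

lemma IsFormation.subdirect₂ (hF : IsFormation F) {G H₁ H₂ : Type} [Group G] [Finite G]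
    [Group H₁] [Finite H₁] [Group H₂] [Finite H₂] (f₁ : G →* H₁) (f₂ : G →* H₂)
    (hf₁ : Surjective f₁) (hf₂ : Surjective f₂) (h₁ : F H₁) (h₂ : F H₂)
    (hsep : ∀ g, f₁ g = 1 → f₂ g = 1 → g = 1) : F G := by
  rw [hF.iff_residual_eq_bot, eq_bot_iff]
  intro g hg
  exact hsep g (hF.residual_le_ker f₁ hf₁ h₁ hg) (hF.residual_le_ker f₂ hf₂ h₂ hg)

lemma IsFormation.prod (hF : IsFormation F) {H₁ H₂ : Type} [Group H₁] [Finite H₁] [Group H₂]
    [Finite H₂] (h₁ : F H₁) (h₂ : F H₂) : F (H₁ × H₂) :=
  hF.subdirect₂ (MonoidHom.fst H₁ H₂) (MonoidHom.snd H₁ H₂) Prod.fst_surjective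
    Prod.snd_surjective h₁ h₂ (fun _ a b => Prod.ext a b)

lemma isFormation_of_hom
    (h0 : F PUnit)
    (h1 : ∀ (G H : Type) [Group G] [Finite G] [Group H] [Finite H] (f : G →* H),
      Surjective f → F G → F H)
    (h2 : ∀ (G H₁ H₂ : Type) [Group G] [Finite G] [Group H₁] [Finite H₁] [Group H₂] [Finite H₂]
      (f₁ : G →* H₁) (f₂ : G →* H₂), Surjective f₁ → Surjective f₂ → F H₁ → F H₂ →
      (∀ g, f₁ g = 1 → f₂ g = 1 → g = 1) → F G) : IsFormation F := by
  refine ⟨⟨PUnit, inferInstance, inferInstance, h0⟩, ?_, ?_, ?_⟩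
  · rintro G H _ _ _ _ ⟨e⟩ h
    exact h1 G H e.toMonoidHom e.surjective h
  · intro G _ _ N _ h
    exact h1 G _ (QuotientGroup.mk' N) (QuotientGroup.mk'_surjective N) h
  · intro G _ _ N₁ N₂ _ _ a b
    refine h2 _ _ _ (QuotientGroup.map (N₁ ⊓ N₂) N₁ (MonoidHom.id G) inf_le_left)
      (QuotientGroup.map (N₁ ⊓ N₂) N₂ (MonoidHom.id G) inf_le_right) ?_ ?_ a b ?_
    · intro y
      obtain ⟨x, rfl⟩ := QuotientGroup.mk_surjective y
      exact ⟨x, rfl⟩
    · intro y
      obtain ⟨x, rfl⟩ := QuotientGroup.mk_surjective y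
      exact ⟨x, rfl⟩
    · intro g a b
      obtain ⟨x, rfl⟩ := QuotientGroup.mk_surjective g
      rw [QuotientGroup.eq_one_iff]
      exact ⟨(QuotientGroup.eq_one_iff (N := N₁) x).mp a, (QuotientGroup.eq_one_iff (N := N₂) x).mp b⟩

lemma IsFormation.map_residual (hF : IsFormation F) {G H : Type} [Group G] [Finite G] [Group H]
    [Finite H] (f : G →* H) (hf : Surjective f) : (residual F G).map f = residual F H := by
  apply le_antisymm
  · rw [Subgroup.map_le_iff_le_comap]
    have := hF.residual_le_ker ((QuotientGroup.mk' (residual F H)).comp f)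
      ((QuotientGroup.mk'_surjective _).comp hf) (hF.quot_residual H)
    intro x hx
    have h2 := this hx
    simpa using h2
  · have : ((residual F G).map f).Normal := Subgroup.Normal.map inferInstance f hf
    have h1 : F (H ⧸ (residual F G).map f) := by
      refine hF.of_residual_le_ker ((QuotientGroup.mk' _).comp f)
        ((QuotientGroup.mk'_surjective _).comp hf) ?_
      intro x hx
      simpa using Subgroup.mem_map_of_mem f hx
    exact sInf_le ⟨inferInstance, h1⟩

/-- the map induced on residuals -/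
def resMap (hF : IsFormation F) {G H : Type} [Group G] [Finite G] [Group H] [Finite H]
    (f : G →* H) (hf : Surjective f) : residual F G →* residual F H :=
  (f.comp (residual F G).subtype).codRestrict _
    (fun x => by rw [← hF.map_residual f hf]; exact Subgroup.mem_map_of_mem f x.2)

lemma resMap_coe (hF : IsFormation F) {G H : Type} [Group G] [Finite G] [Group H] [Finite H]
    (f : G →* H) (hf : Surjective f) (x : residual F G) : (resMap hF f hf x : H) = f x := rfl

lemma resMap_surjective (hF : IsFormation F) {G H : Type} [Group G] [Finite G] [Group H] [Finite H]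
    (f : G →* H) (hf : Surjective f) : Surjective (resMap hF f hf) := by
  rintro ⟨y, hy⟩
  rw [← hF.map_residual f hf] at hy
  obtain ⟨x, hx, rfl⟩ := hy
  exact ⟨⟨x, hx⟩, rfl⟩

lemma IsFormation.formProd (hA : IsFormation A) (hB : IsFormation B) :
    IsFormation (formProd A B) := by
  apply isFormation_of_hom
  · exact hA.triv _
  · intro G H _ _ _ _ f hf h
    exact hA.surj (resMap hB f hf) (resMap_surjective hB f hf) h
  · intro G H₁ H₂ _ _ _ _ _ _ f₁ f₂ hf₁ hf₂ h₁ h₂ hsep
    refine hA.subdirect₂ (resMap hB f₁ hf₁) (resMap hB f₂ hf₂) (resMap_surjective hB f₁ hf₁)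
      (resMap_surjective hB f₂ hf₂) h₁ h₂ ?_
    intro g a b
    exact Subtype.ext (hsep g (congrArg Subtype.val a) (congrArg Subtype.val b))

lemma residual_characteristic (hF : IsFormation F) (G : Type) [Group G] [Finite G] :
    (residual F G).Characteristic := by
  rw [Subgroup.characteristic_iff_map_eq]
  intro φ
  exact hF.map_residual φ.toMonoidHom φ.surjective

lemma residual_formProd (hB : IsFormation B) (hC : IsFormation C) (G : Type) [Group G] [Finite G] :
    residual (formProd B C) G = (residual B (residual C G)).map (residual C G).subtype := by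
  have := residual_characteristic hB (residual C G)
  apply le_antisymm
  · have h : formProd B C (G ⧸ (residual B (residual C G)).map (residual C G).subtype) := by
      refine hB.of_residual_le_ker (resMap hC (QuotientGroup.mk' _)
        (QuotientGroup.mk'_surjective _)) (resMap_surjective _ _ _) ?_
      intro x hx
      rw [MonoidHom.mem_ker]
      apply Subtype.ext
      rw [resMap_coe]
      exact (QuotientGroup.eq_one_iff _).mpr (Subgroup.mem_map_of_mem _ hx)
    exact sInf_le ⟨inferInstance, h⟩
  · have h := (hB.formProd hC).quot_residual G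
    have h2 := hB.residual_le_ker (resMap hC (QuotientGroup.mk' _)
        (QuotientGroup.mk'_surjective _)) (resMap_surjective _ _ _) h
    rintro _ ⟨x, hx, rfl⟩
    have h3 := congrArg Subtype.val (MonoidHom.mem_ker.mp (h2 hx))
    rw [resMap_coe] at h3
    simpa using h3

lemma formProd_assoc (hA : IsFormation A) (hB : IsFormation B) (hC : IsFormation C) :
    formProd (formProd A B) C = formProd A (formProd B C) := by
  funext G _ _
  have e : residual B (residual C G) ≃* residual (formProd B C) G :=
    (Subgroup.equivMapOfInjective _ _ (residual C G).subtype_injective).trans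
      (MulEquiv.subgroupCongr (residual_formProd hB hC G).symm)
  exact propext ⟨hA.iso e, hA.iso e.symm⟩

/-- `F` is a product of non-decomposable formations -/
def Good (F : GroupClass) : Prop :=
  ∃ (F₁ : GroupClass) (L : List GroupClass),
    (∀ X ∈ F₁ :: L, IsFormation X ∧ NonDecomposable X) ∧ F = formProdList F₁ L

lemma isFormation_formProdList (L : List GroupClass) :
    ∀ F₁, (∀ X ∈ F₁ :: L, IsFormation X) → IsFormation (formProdList F₁ L) := by
  induction L with
  | nil => intro F₁ h; exact h F₁ (by simp)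
  | cons X L ih =>
    intro F₁ h
    exact (h F₁ (by simp)).formProd (ih X fun Y hY => h Y (List.mem_cons_of_mem _ hY))

lemma formProd_formProdList (L : List GroupClass) (B₁ : GroupClass) (M : List GroupClass)
    (hM : ∀ X ∈ B₁ :: M, IsFormation X) :
    ∀ F₁, (∀ X ∈ F₁ :: L, IsFormation X) →
      formProd (formProdList F₁ L) (formProdList B₁ M) = formProdList F₁ (L ++ B₁ :: M) := by
  induction L with
  | nil => intro F₁ _; rfl
  | cons X L ih =>
    intro F₁ h
    have h' : ∀ Y ∈ X :: L, IsFormation Y := fun Y hY => h Y (List.mem_cons_of_mem _ hY)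
    change formProd (formProd F₁ (formProdList X L)) _ = formProd F₁ (formProdList X _)
    rw [formProd_assoc (h F₁ (by simp)) (isFormation_formProdList L X h')
      (isFormation_formProdList M B₁ hM), ih X h']
    rfl

lemma Good.mul (hA : Good A) (hB : Good B) : Good (formProd A B) := by
  obtain ⟨A₁, L, hL, rfl⟩ := hA
  obtain ⟨B₁, M, hM, rfl⟩ := hB
  refine ⟨A₁, L ++ B₁ :: M, ?_, formProd_formProdList L B₁ M (fun X hX => (hM X hX).1) A₁
    (fun X hX => (hL X hX).1)⟩
  intro X hX
  rw [← List.cons_append, List.mem_append] at hX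
  rcases hX with hX | hX
  · exact hL X hX
  · exact hM X hX

/-- a proper factorisation -/
structure Dec (F A B : GroupClass) : Prop where
  hA : IsFormation A
  hB : IsFormation B
  neA : A ≠ F
  neB : B ≠ F
  eq : F = formProd A B

lemma good_of_dec (hF : IsFormation F) (h : ∀ A B, Dec F A B → Good A ∧ Good B) : Good F := by
  by_cases hd : NonDecomposable F
  · exact ⟨F, [], by simpa using ⟨hF, hd⟩, rfl⟩
  · obtain ⟨A, B, hA, hB, h1, h2, h3⟩ := not_not.mp hd
    obtain ⟨a, b⟩ := h A B ⟨hA, hB, h1, h2, h3⟩
    rw [h3]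
    exact a.mul b

lemma Dec.iff (d : Dec F A B) {G : Type} [Group G] [Finite G] : F G ↔ A (residual B G) := by
  rw [d.eq]; rfl

lemma Dec.right_le (d : Dec F A B) {G : Type} [Group G] [Finite G] (h : B G) : F G := by
  rw [d.iff]
  have : Subsingleton (residual B G) := by
    rw [d.hB.iff_residual_eq_bot.mp h]; infer_instance
  exact d.hA.triv _

lemma Dec.exists_not (d : Dec F A B) :
    ∃ (G : Type) (_ : Group G) (_ : Finite G), F G ∧ Nontrivial (residual B G) := by
  by_contra hc
  apply d.neB
  funext G _ _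
  refine propext ⟨d.right_le, fun h => ?_⟩
  rw [d.hB.iff_residual_eq_bot]
  by_contra hne
  exact hc ⟨G, inferInstance, inferInstance, h, (Subgroup.nontrivial_iff_ne_bot _).mpr hne⟩

lemma Dec.left_nontrivial (d : Dec F A B) :
    ∃ (T : Type) (_ : Group T) (_ : Finite T), A T ∧ Nontrivial T := by
  obtain ⟨G, _, _, h, hn⟩ := d.exists_not
  exact ⟨residual B G, inferInstance, inferInstance, d.iff.mp h, hn⟩

lemma Dec.right_nontrivial (d : Dec F A B) :
    ∃ (H : Type) (_ : Group H) (_ : Finite H), B H ∧ Nontrivial H := by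
  by_contra hc
  apply d.neA
  funext G _ _
  have htop : residual B G = ⊤ := by
    by_contra hne
    apply hc
    refine ⟨G ⧸ residual B G, inferInstance, inferInstance, d.hB.quot_residual G, ?_⟩
    exact QuotientGroup.nontrivial_iff.mpr hne
  have e : residual B G ≃* G := (MulEquiv.subgroupCongr htop).trans Subgroup.topEquiv
  rw [d.iff]
  exact propext ⟨d.hA.iso e.symm, d.hA.iso e⟩

end Pool.Agent.P.MP_58728c_al
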