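import Pool.Agent.P.MP_58728c_al.Wreath

namespace Pool.Agent.P.MP_58728c_al

open Function RegularWreathProduct

/-- `e`-th powers of `q`-elements lie in a normal `q`-subgroup, for every prime `q` -/
def X (e : ℕ) : GroupClass := fun G _ _ =>
  ∀ q : ℕ, q.Prime → ∀ x : G, (∃ k, x ^ q ^ k = 1) →
    ∃ N : Subgroup G, N.Normal ∧ IsPGroup q N ∧ x ^ e ∈ N

lemma isPGroup_zpowers {G : Type} [Group G] {q : ℕ} {x : G} (hx : ∃ k, x ^ q ^ k = 1) :
    IsPGroup q (Subgroup.zpowers x) := by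
  obtain ⟨k, hk⟩ := hx
  rintro ⟨_, n, rfl⟩
  refine ⟨k, Subtype.ext ?_⟩
  change (x ^ n) ^ q ^ k = 1
  rw [← zpow_natCast, ← zpow_mul, mul_comm, zpow_mul, zpow_natCast, hk, one_zpow]

lemma pow_of_mem_pgroup {G : Type} [Group G] {q : ℕ} {N : Subgroup G} (hN : IsPGroup q N) {x : G}
    (hx : x ∈ N) : ∃ k, x ^ q ^ k = 1 := by
  obtain ⟨k, hk⟩ := hN ⟨x, hx⟩
  exact ⟨k, congrArg Subtype.val hk⟩

lemma lift_pelt {G H : Type} [Group G] [Finite G] [Group H] {f : G →* H} (hf : Surjective f)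
    {q : ℕ} (hq : q.Prime) {y : H} (hy : ∃ k, y ^ q ^ k = 1) :
    ∃ x, f x = y ∧ ∃ k, x ^ q ^ k = 1 := by
  have := Fact.mk hq
  obtain ⟨Q, hQ⟩ := (isPGroup_zpowers hy).exists_le_sylow
  obtain ⟨P, rfl⟩ := Sylow.mapSurjective_surjective hf q Q
  obtain ⟨x, hx, e⟩ := hQ (Subgroup.mem_zpowers y)
  exact ⟨x, e, pow_of_mem_pgroup P.2 hx⟩

lemma X_of_pow_eq_one {e : ℕ} {G : Type} [Group G] [Finite G] (h : ∀ g : G, g ^ e = 1) : X e G :=
  fun _ _ x _ => ⟨⊥, inferInstance, IsPGroup.of_bot, h x⟩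

lemma X_of_isPGroup {e p : ℕ} (hp : p.Prime) {G : Type} [Group G] [Finite G] (h : IsPGroup p G) :
    X e G := by
  intro q hq x hx
  by_cases hqp : q = p
  · subst hqp
    exact ⟨⊤, inferInstance, h.to_subgroup ⊤, trivial⟩
  · have := Fact.mk hp
    have := Fact.mk hq
    have hd := IsPGroup.disjoint_of_ne q p hqp _ _ (isPGroup_zpowers hx) (h.to_subgroup ⊤)
    have : x = 1 := by
      have := hd.le_bot ⟨Subgroup.mem_zpowers x, trivial⟩
      simpa using this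
    exact ⟨⊥, inferInstance, IsPGroup.of_bot, by simp [this]⟩

lemma isFormation_X (e : ℕ) : IsFormation (X e) := by
  apply isFormation_of_hom
  · exact X_of_pow_eq_one fun _ => rfl
  · intro G H _ _ _ _ f hf h q hq y hy
    obtain ⟨x, rfl, hx⟩ := lift_pelt hf hq hy
    obtain ⟨N, hN, hp, hm⟩ := h q hq x hx
    exact ⟨N.map f, hN.map f hf, hp.map f, by rw [← map_pow]; exact Subgroup.mem_map_of_mem f hm⟩
  · intro G H₁ H₂ _ _ _ _ _ _ f₁ f₂ _ _ h₁ h₂ hsep q hq x ⟨k, hk⟩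
    obtain ⟨N₁, hN₁, hp₁, hm₁⟩ := h₁ q hq (f₁ x) ⟨k, by rw [← map_pow, hk, map_one]⟩
    obtain ⟨N₂, hN₂, hp₂, hm₂⟩ := h₂ q hq (f₂ x) ⟨k, by rw [← map_pow, hk, map_one]⟩
    refine ⟨N₁.comap f₁ ⊓ N₂.comap f₂, inferInstance, ?_, by simpa using ⟨hm₁, hm₂⟩⟩
    rintro ⟨g, g1, g2⟩
    obtain ⟨a, ha⟩ := pow_of_mem_pgroup hp₁ g1
    obtain ⟨b, hb⟩ := pow_of_mem_pgroup hp₂ g2
    refine ⟨a + b, Subtype.ext (hsep _ ?_ ?_)⟩
    · change f₁ (g ^ q ^ (a + b)) = 1
      rw [map_pow, pow_add, pow_mul, ha, one_pow]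
    · change f₂ (g ^ q ^ (a + b)) = 1
      rw [map_pow, add_comm, pow_add, pow_mul, hb, one_pow]

lemma isSaturated_X (e : ℕ) : IsSaturated (X e) := by
  intro G _ _ h q hq x ⟨k, hk⟩
  have := Fact.mk hq
  obtain ⟨N, hN, hp, hm⟩ := h q hq (x : G ⧸ frattini G)
    ⟨k, by rw [← QuotientGroup.mk_pow, hk]; rfl⟩
  let M : Subgroup G := N.comap (QuotientGroup.mk' (frattini G))
  have hxM : x ^ e ∈ M := hm
  have hxq : ∃ j, (⟨x ^ e, hxM⟩ : M) ^ q ^ j = 1 :=
    ⟨k, Subtype.ext (by simp only [SubmonoidClass.mk_pow, OneMemClass.coe_one]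
                        rw [← pow_mul, mul_comm, pow_mul, hk, one_pow])⟩
  obtain ⟨P, hP⟩ := (isPGroup_zpowers hxq).exists_le_sylow
  have frat := Sylow.normalizer_sup_eq_top P
  let g : M →* N := ((QuotientGroup.mk' (frattini G)).comp M.subtype).codRestrict N fun m => m.2
  have hg : Surjective g := by
    rintro ⟨y, hy⟩
    obtain ⟨z, rfl⟩ := QuotientGroup.mk'_surjective _ y
    exact ⟨⟨z, hy⟩, rfl⟩
  have htop : (⊤ : Subgroup N) = (P.mapSurjective hg : Subgroup N) :=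
    (P.mapSurjective hg).is_maximal' (hp.to_subgroup ⊤) le_top
  have hM : M ≤ Subgroup.normalizer ((P : Subgroup M).map M.subtype : Set G) ⊔ frattini G := by
    intro m hm
    have : g ⟨m, hm⟩ ∈ (P.mapSurjective hg : Subgroup N) := htop ▸ trivial
    obtain ⟨p, hp1, hp2⟩ := this
    have h1 : (p : G)⁻¹ * m ∈ frattini G := QuotientGroup.eq.mp (congrArg Subtype.val hp2)
    have h2 : (p : G) ∈ Subgroup.normalizer ((P : Subgroup M).map M.subtype : Set G) :=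
      Subgroup.le_normalizer (Subgroup.mem_map_of_mem _ hp1)
    simpa using Subgroup.mul_mem_sup h2 h1
  have h3 : Subgroup.normalizer ((P : Subgroup M).map M.subtype : Set G) ⊔ frattini G = ⊤ := by
    rw [eq_top_iff, ← frat]
    exact sup_le le_sup_left hM
  have h4 := frattini_nongenerating h3
  exact ⟨(P : Subgroup M).map M.subtype, Subgroup.normalizer_eq_top_iff.mp h4, P.2.map _,
    Subgroup.mem_map_of_mem _ (hP (Subgroup.mem_zpowers _))⟩

section
variable {T H : Type} [Group T] [Finite T] [Group H] [Finite H] {e : ℕ}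

lemma isPGroup_of_X_wreath (hX : X e (T ≀ᵣ H)) {q : ℕ} (hq : q.Prime) {h : H}
    (hh : ∃ k, h ^ q ^ k = 1) (he : h ^ e ≠ 1) : IsPGroup q T := by
  obtain ⟨k, hk⟩ := hh
  obtain ⟨N, hN, hp, hm⟩ := hX q hq (inl h) ⟨k, by rw [← map_pow, hk, map_one]⟩
  rw [← map_pow] at hm
  generalize h ^ e = g at he hm
  intro t
  have h1 : elt t 1 * inl g * (elt t 1)⁻¹ * (inl g)⁻¹ ∈ N :=
    N.mul_mem (hN.conj_mem _ hm _) (N.inv_mem hm)
  obtain ⟨j, hj⟩ := pow_of_mem_pgroup hp h1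
  refine ⟨j, ?_⟩
  have h2 := (pow_left_of_right_eq_one (u := elt t 1 * inl g * (elt t 1)⁻¹ * (inl g)⁻¹)
    (by simp [elt_right]) (q ^ j) 1).1
  rw [hj] at h2
  have h3 : (elt t (1 : H)).left g⁻¹ = 1 := elt_left_ne t 1 (by simpa using he)
  simpa [elt_right, elt_left_one, h3] using h2.symm

omit [Finite T] [Finite H] in
lemma proj_normal {q : ℕ} {N : Subgroup (T ≀ᵣ H)} (hN : N.Normal) (hp : IsPGroup q N)
    {w : T ≀ᵣ H} (hw : w ∈ N) (hw1 : w.right = 1) :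
    ∃ M : Subgroup T, M.Normal ∧ IsPGroup q M ∧ w.left 1 ∈ M := by
  let D : Subgroup (T ≀ᵣ H) := N ⊓ (rightHom : T ≀ᵣ H →* H).ker
  have hD : ∀ d ∈ D, d.right = 1 := fun d hd => hd.2
  have hDN : D.Normal := inferInstance
  refine ⟨(coord D hD 1).range, ?_, ?_, ⟨⟨w, hw, hw1⟩, rfl⟩⟩
  · constructor
    rintro _ ⟨d, rfl⟩ t
    refine ⟨⟨_, hDN.conj_mem d.1 d.2 (diag t)⟩, ?_⟩
    simp [coord, diag]
  · exact (hp.to_inf_left (K := (rightHom : T ≀ᵣ H →* H).ker)).of_surjective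
      (coord D hD 1).rangeRestrict (coord D hD 1).rangeRestrict_surjective

lemma X_div_of_X_wreath (hX : X e (T ≀ᵣ H)) {r : ℕ} (hr : r.Prime) {h : H} (hh : orderOf h = r)
    (hre : r ∣ e) : X (e / r) T := by
  obtain ⟨m, rfl⟩ := hre
  rw [Nat.mul_div_cancel_left m hr.pos]
  intro q hq t ⟨k, hk⟩
  by_cases hqr : q = r
  · subst hqr
    have h1 : elt t h ^ q ^ (k + 1 + k) = 1 := by
      have h2 := elt_pow_mul t h 1
      rw [hh, mul_one] at h2
      have h3 : ∀ x, ∃ j, (elt t h ^ q).left x = t ^ j := by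
        have : ∀ n x, ∃ j, (elt t h ^ n).left x = t ^ j := by
          intro n
          induction n with
          | zero => intro x; exact ⟨0, by simp⟩
          | succ n ih =>
            intro x
            obtain ⟨j, hj⟩ := ih x
            rw [pow_succ, mul_left, Pi.mul_apply, hj]
            by_cases hx : (elt t h ^ n).right⁻¹ * x = 1
            · rw [hx, elt_left_one]; exact ⟨j + 1, (pow_succ _ _).symm⟩
            · rw [elt_left_ne _ _ hx]; exact ⟨j, mul_one _⟩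
        exact this q
      have h4 : (elt t h ^ q) ^ q ^ k = 1 := by
        ext x
        · obtain ⟨j, hj⟩ := h3 x
          rw [(pow_left_of_right_eq_one h2.2 _ x).1, hj, ← pow_mul, mul_comm, pow_mul, hk]
          simp
        · exact (pow_left_of_right_eq_one h2.2 _ 1).2
      rw [← pow_mul, ← pow_succ'] at h4
      rw [pow_add, pow_mul, h4, one_pow]
    obtain ⟨N, hN, hp, hm⟩ := hX q hq (elt t h) ⟨_, h1⟩
    have h5 := elt_pow_mul t h m
    rw [hh] at h5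
    obtain ⟨M, a, b, c⟩ := proj_normal hN hp hm h5.2
    exact ⟨M, a, b, h5.1 ▸ c⟩
  · obtain ⟨N, hN, hp, hm⟩ := hX q hq (diag t) ⟨k, by rw [← map_pow, hk, map_one]⟩
    rw [← map_pow] at hm
    obtain ⟨M, a, b, c⟩ := proj_normal hN hp hm rfl
    refine ⟨M, a, b, ?_⟩
    have c' : (t ^ m) ^ r ∈ M := by rw [← pow_mul, mul_comm]; exact c
    have hc : (orderOf (t ^ m)).Coprime r := by
      have h1 : orderOf (t ^ m) ∣ q ^ k := (orderOf_pow_dvd m).trans (orderOf_dvd_of_pow_eq_one hk)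
      exact Nat.Coprime.coprime_dvd_left h1
        (Nat.Coprime.pow_left k ((Nat.coprime_primes hq hr).mpr hqr))
    obtain ⟨j, hj⟩ := exists_pow_eq_self_of_coprime hc.symm
    rw [← hj]
    exact M.pow_mem c' j

end

lemma exists_pelt {H : Type} [Group H] [Finite H] {e : ℕ} {g : H} (hg : g ^ e ≠ 1) :
    ∃ q : ℕ, q.Prime ∧ ∃ h : H, (∃ k, h ^ q ^ k = 1) ∧ h ^ e ≠ 1 := by
  rw [ne_eq, ← orderOf_dvd_iff_pow_eq_one, Nat.dvd_iff_prime_pow_dvd_dvd] at hg
  push Not at hg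
  obtain ⟨q, k, hq, ⟨m, hm⟩, h2⟩ := hg
  have h0 : 0 < orderOf g := orderOf_pos g
  have hm0 : m ≠ 0 := by rintro rfl; omega
  have ho : orderOf (g ^ m) = q ^ k := by
    rw [orderOf_pow' g hm0, hm, Nat.gcd_mul_left_left, Nat.mul_div_cancel _ (Nat.pos_of_ne_zero hm0)]
  refine ⟨q, hq, g ^ m, ⟨k, by rw [← ho, pow_orderOf_eq_one]⟩, ?_⟩
  rwa [ne_eq, ← orderOf_dvd_iff_pow_eq_one, ho]

/-- the cyclic group of order `p` -/
abbrev Cy (p : ℕ) : Type := Multiplicative (ZMod p)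

lemma card_Cy (p : ℕ) : Nat.card (Cy p) = p :=
  (Nat.card_congr Multiplicative.toAdd).trans (Nat.card_zmod p)

lemma exists_surj_Cy {p : ℕ} [hp : Fact p.Prime] {T : Type} [Group T] [Finite T] [Nontrivial T]
    (hT : IsPGroup p T) : ∃ φ : T →* Cy p, Surjective φ := by
  obtain ⟨n, hn, hc⟩ := hT.nontrivial_iff_card.mp inferInstance
  obtain ⟨m, rfl⟩ : ∃ m, n = m + 1 := ⟨n - 1, by omega⟩
  obtain ⟨M, hM⟩ := Sylow.exists_subgroup_card_pow_prime (G := T) p (n := m)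
    (by rw [hc]; exact pow_dvd_pow p (by omega))
  have hi : M.index = p := by
    have := M.card_mul_index
    rw [hM, hc, pow_succ] at this
    exact Nat.eq_of_mul_eq_mul_left (pow_pos hp.out.pos m) this
  have hN : M.Normal := by
    apply Subgroup.normal_of_index_eq_minFac_card
    rw [hi, hc, hp.out.pow_minFac (by omega)]
  let e : T ⧸ M ≃* Cy p := mulEquivOfPrimeCardEq (p := p) hi (card_Cy p)
  exact ⟨e.toMonoidHom.comp (QuotientGroup.mk' M), e.surjective.comp (QuotientGroup.mk'_surjective M)⟩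

end Pool.Agent.P.MP_58728c_al
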