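import Mathlib

namespace Pool.Agent.P.MP_58728c_al

/-- A class of finite groups. -/
abbrev GroupClass : Type 1 := ∀ (G : Type) [Group G] [Finite G], Prop

/-- A formation: nonempty, closed under isomorphism and quotients, and
`G/N₁, G/N₂ ∈ F` implies `G/(N₁ ∩ N₂) ∈ F`. -/
def IsFormation (F : GroupClass) : Prop :=
  (∃ (G : Type) (_ : Group G) (_ : Finite G), F G) ∧
  (∀ (G H : Type) [Group G] [Finite G] [Group H] [Finite H], Nonempty (G ≃* H) → F G → F H) ∧
  (∀ (G : Type) [Group G] [Finite G] (N : Subgroup G) [N.Normal], F G → F (G ⧸ N)) ∧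
  (∀ (G : Type) [Group G] [Finite G] (N₁ N₂ : Subgroup G) [N₁.Normal] [N₂.Normal],
    F (G ⧸ N₁) → F (G ⧸ N₂) → F (G ⧸ (N₁ ⊓ N₂)))

/-- Saturated: `G/Φ(G) ∈ F` implies `G ∈ F`. -/
def IsSaturated (F : GroupClass) : Prop :=
  ∀ (G : Type) [Group G] [Finite G], F (G ⧸ frattini G) → F G

/-- The intersection of all saturated formations containing `G₀`. -/
def satFormGen (G₀ : Type) [Group G₀] [Finite G₀] : GroupClass :=
  fun G _ _ => ∀ S : GroupClass, IsFormation S → IsSaturated S → S G₀ → S G

/-- The `F`-residual of `G`: the intersection of all normal subgroups `N` with `G/N ∈ F`. -/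
def residual (F : GroupClass) (G : Type) [Group G] [Finite G] : Subgroup G :=
  sInf {N : Subgroup G | ∃ _ : N.Normal, F (G ⧸ N)}

/-- The product `A B`: the groups whose `B`-residual lies in `A`. -/
def formProd (A B : GroupClass) : GroupClass :=
  fun G _ _ => A (residual B G)

/-- The product `F₁ F₂ ⋯ F_t` of the nonempty list `F₁ :: L`. -/
def formProdList : GroupClass → List GroupClass → GroupClass
  | F₁, [] => F₁
  | F₁, F₂ :: L => formProd F₁ (formProdList F₂ L)

/-- Non-decomposable: not a product of two formations both different from it. -/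
def NonDecomposable (F : GroupClass) : Prop :=
  ¬ ∃ A B : GroupClass, IsFormation A ∧ IsFormation B ∧ A ≠ F ∧ B ≠ F ∧ F = formProd A B

end Pool.Agent.P.MP_58728c_al
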