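import Pool.Agent.P.MP_58728c_al.ClassX

namespace Pool.Agent.P.MP_58728c_al

open Function RegularWreathProduct

variable {A B F : GroupClass}

/-- `B` is closed under `H ↦ C_p ≀ H` -/
def Closed (B : GroupClass) (p : ℕ) [Fact p.Prime] : Prop :=
  ∀ (H : Type) [Group H] [Finite H], B H → B (Cy p ≀ᵣ H)

/-- `F` is contained in `F'` -/
def Sub (F F' : GroupClass) : Prop := ∀ (G : Type) [Group G] [Finite G], F G → F' G

lemma exists_avoid (hB : IsFormation B) (s : Finset ℕ) :
    ∃ (H₀ : Type) (_ : Group H₀) (_ : Finite H₀), B H₀ ∧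
      ∀ p ∈ s, ∀ [Fact p.Prime], B (Cy p ≀ᵣ H₀) → Closed B p := by
  classical
  induction s using Finset.induction_on with
  | empty => exact ⟨PUnit, inferInstance, inferInstance, hB.triv _, by simp⟩
  | insert p s _ ih =>
    obtain ⟨H₀, _, _, h0, h1⟩ := ih
    by_cases hc : ∀ [Fact p.Prime], Closed B p
    · refine ⟨H₀, inferInstance, inferInstance, h0, fun q hq _ h => ?_⟩
      rcases Finset.mem_insert.mp hq with rfl | hq
      · exact hc
      · exact h1 q hq h
    · push Not at hc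
      obtain ⟨_, hc⟩ := hc
      unfold Closed at hc
      push Not at hc
      obtain ⟨H₁, _, _, h2, h3⟩ := hc
      refine ⟨H₀ × H₁, inferInstance, inferInstance, hB.prod h0 h2, fun q hq _ h => ?_⟩
      rcases Finset.mem_insert.mp hq with rfl | hq
      · exact absurd (hB.surj (pushRight (MonoidHom.snd H₀ H₁))
          (pushRight_surjective Prod.snd_surjective) h) h3
      · exact h1 q hq (hB.surj (pushRight (MonoidHom.fst H₀ H₁))
          (pushRight_surjective Prod.fst_surjective) h)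

lemma exists_max_gcd (hB : IsFormation B) {n : ℕ} (hn : 0 < n) :
    ∃ (H₀ : Type) (_ : Group H₀) (_ : Finite H₀), B H₀ ∧
      ∀ (H : Type) [Group H] [Finite H], B H →
        Nat.gcd (Monoid.exponent H) n ≤ Nat.gcd (Monoid.exponent H₀) n := by
  let S : Set ℕ := {m | ∃ (H : Type) (_ : Group H) (_ : Finite H), B H ∧
    Nat.gcd (Monoid.exponent H) n = m}
  have hfin : S.Finite := (Set.finite_le_nat n).subset (by
    rintro m ⟨H, _, _, -, rfl⟩
    exact Nat.gcd_le_right _ hn)
  obtain ⟨m, ⟨H₀, _, _, h0, rfl⟩, hmax⟩ := Set.exists_max_image S id hfin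
    ⟨_, PUnit, inferInstance, inferInstance, hB.triv _, rfl⟩
  exact ⟨H₀, inferInstance, inferInstance, h0,
    fun H _ _ h => hmax _ ⟨H, inferInstance, inferInstance, h, rfl⟩⟩

lemma exists_test {e : ℕ} (he : 0 < e) (hB : IsFormation B) (hX : Sub B (X e)) (T : Type) [Group T]
    [Finite T] (hT : ∀ (p : ℕ) [Fact p.Prime], Closed B p → ∀ (φ : T →* Cy p) (t : T), φ t = 1) :
    ∃ (H₀ : Type) (_ : Group H₀) (_ : Finite H₀), B H₀ ∧
      ∀ (H₁ : Type) [Group H₁] [Finite H₁], B H₁ →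
        ∀ (T' : Type) [Group T'] [Finite T'] [Nontrivial T'] (f : T →* T'), Surjective f →
          ¬ B (T' ≀ᵣ (H₀ × H₁)) := by
  have hn : 0 < e * Nat.card T := Nat.mul_pos he Nat.card_pos
  obtain ⟨Ha, _, _, ha, ha'⟩ := exists_avoid hB (Nat.card T).primeFactors
  obtain ⟨Hb, _, _, hb, hb'⟩ := exists_max_gcd hB hn
  refine ⟨Ha × Hb, inferInstance, inferInstance, hB.prod ha hb, ?_⟩
  intro H₁ _ _ h1 T' _ _ _ f hf hW
  set H := (Ha × Hb) × H₁
  obtain ⟨p, hp, hpT'⟩ := Nat.exists_prime_and_dvd (Finite.one_lt_card (α := T')).ne'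
  have := Fact.mk hp
  have hpT : p ∣ Nat.card T := hpT'.trans (Subgroup.card_dvd_of_surjective f hf)
  obtain ⟨t, ht⟩ := exists_prime_orderOf_dvd_card' p hpT'
  obtain ⟨h, hh⟩ := hp.exists_orderOf_eq_pow_factorization_exponent H
  set v := (Monoid.exponent H).factorization p
  have d1 : Monoid.exponent Hb ∣ Monoid.exponent H :=
    MonoidHom.exponent_dvd (f := (MonoidHom.snd Ha Hb).comp (MonoidHom.fst (Ha × Hb) H₁))
      (Prod.snd_surjective.comp Prod.fst_surjective)
  have d2 : Monoid.exponent H ∣ Monoid.exponent (T' ≀ᵣ H) :=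
    MonoidHom.exponent_dvd (f := rightHom) rightHom_surjective
  have d3 : p ^ (v + 1) ∣ Monoid.exponent (T' ≀ᵣ H) := by
    have := order_dvd_of_elt_pow t h (Monoid.pow_exponent_eq_one _)
    rwa [hh, ht, ← pow_succ] at this
  have g1 : Nat.gcd (Monoid.exponent Hb) (e * Nat.card T)
      = Nat.gcd (Monoid.exponent (T' ≀ᵣ H)) (e * Nat.card T) :=
    Nat.le_antisymm (Nat.le_of_dvd (Nat.gcd_pos_of_pos_right _ hn)
      (Nat.gcd_dvd_gcd_of_dvd_left _ (d1.trans d2))) (hb' _ hW)
  have hhe : h ^ e ≠ 1 := by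
    intro h0
    have h2 : p ^ v ∣ e := hh ▸ orderOf_dvd_of_pow_eq_one h0
    have h3 : p ^ (v + 1) ∣ e * Nat.card T := by rw [pow_succ]; exact Nat.mul_dvd_mul h2 hpT
    have h4 : p ^ (v + 1) ∣ Monoid.exponent H :=
      ((g1 ▸ Nat.dvd_gcd d3 h3).trans (Nat.gcd_dvd_left _ _)).trans d1
    exact Nat.pow_succ_factorization_not_dvd Monoid.exponent_ne_zero_of_finite hp h4
  have hT' : IsPGroup p T' :=
    isPGroup_of_X_wreath (hX _ hW) hp ⟨v, by rw [← hh, pow_orderOf_eq_one]⟩ hhe
  obtain ⟨φ, hφ⟩ := exists_surj_Cy hT'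
  have h5 : B (Cy p ≀ᵣ H) := hB.surj (mapLeft φ) (mapLeft_surjective hφ) hW
  have h6 : B (Cy p ≀ᵣ Ha) := hB.surj
    (pushRight ((MonoidHom.fst Ha Hb).comp (MonoidHom.fst (Ha × Hb) H₁)))
    (pushRight_surjective (Prod.fst_surjective.comp Prod.fst_surjective)) h5
  have hc := ha' p (Nat.mem_primeFactors.mpr ⟨hp, hpT, Nat.card_pos.ne'⟩) h6
  obtain ⟨y, hy⟩ := exists_ne (1 : Cy p)
  obtain ⟨x, rfl⟩ := (hφ.comp hf) y
  exact hy (hT p hc (φ.comp f) x)

lemma Closed.unbounded {p : ℕ} [hp : Fact p.Prime] (hB : IsFormation B) (hc : Closed B p) :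
    ∀ n : ℕ, 0 < n → ∃ (H : Type) (_ : Group H) (_ : Finite H), B H ∧ IsPGroup p H ∧
      ∃ h : H, h ^ n ≠ 1 := by
  intro n
  obtain ⟨t, ht⟩ := exists_prime_orderOf_dvd_card' (G := Cy p) p (by rw [card_Cy])
  have hC : IsPGroup p (Cy p) := IsPGroup.of_card (n := 1) (by rw [card_Cy, pow_one])
  induction n using Nat.strong_induction_on with
  | _ n ih =>
    intro hn
    by_cases hpn : p ∣ n
    · obtain ⟨m, rfl⟩ := hpn
      have hm : 0 < m := Nat.pos_of_mul_pos_left hn
      obtain ⟨H, _, _, h1, h2, h, hh⟩ := ih m (by nlinarith [hp.out.two_le]) hm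
      refine ⟨Cy p ≀ᵣ H, inferInstance, inferInstance, hc H h1, isPGroup_wreath hC h2,
        elt t h, fun h0 => hh ?_⟩
      have := order_dvd_of_elt_pow t h h0
      rw [ht, mul_comm p m] at this
      exact orderOf_dvd_iff_pow_eq_one.mp (Nat.dvd_of_mul_dvd_mul_right hp.out.pos this)
    · refine ⟨Cy p ≀ᵣ PUnit, inferInstance, inferInstance, hc _ (hB.triv _),
        isPGroup_wreath hC (IsPGroup.of_subsingleton _ _), elt t 1, fun h0 => hpn ?_⟩
      have := order_dvd_of_elt_pow t (1 : PUnit) h0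
      rwa [ht, orderOf_one, one_mul] at this

lemma Dec.sub_right (d : Dec F A B) {Y : GroupClass} (h : Sub F Y) : Sub B Y :=
  fun G _ _ hG => h G (d.right_le hG)

lemma Dec.not_closed (d : Dec F A B) {e : ℕ} (he : 0 < e) (hX : Sub F (X e)) (p : ℕ)
    [hp : Fact p.Prime] : ¬ Closed B p := by
  intro hc
  obtain ⟨G, _, _, hG, hn⟩ := d.exists_not
  have hT : ∀ (q : ℕ) [Fact q.Prime], Closed B q → ∀ (φ : residual B G →* Cy q) t, φ t = 1 :=
    fun q _ hq φ t => hom_trivial d.hB _ le_rfl (hq _ (d.hB.quot_residual G)) φ t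
  obtain ⟨H₀, _, _, h0, h1⟩ := exists_test he d.hB (d.sub_right hX) _ hT
  obtain ⟨H₁, _, _, h2, h3, h, hh⟩ := hc.unbounded d.hB e he
  have hW : F (residual B G ≀ᵣ (H₀ × H₁)) :=
    d.iff.mpr ((wreath_test d.hA d.hB (d.hB.prod h0 h2) (h1 H₁ h2)).mp (d.iff.mp hG))
  obtain ⟨k, hk⟩ := h3 h
  have hp' : IsPGroup p (residual B G) :=
    isPGroup_of_X_wreath (h := ((1, h) : H₀ × H₁)) (hX _ hW) hp.out ⟨k, by simp [hk]⟩
      (by simpa using hh)
  obtain ⟨φ, hφ⟩ := exists_surj_Cy hp'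
  obtain ⟨y, hy⟩ := exists_ne (1 : Cy p)
  obtain ⟨x, rfl⟩ := hφ y
  exact hy (hT p hc φ x)

lemma Dec.test (d : Dec F A B) {e : ℕ} (he : 0 < e) (hX : Sub F (X e)) (T : Type) [Group T]
    [Finite T] : ∃ (H₀ : Type) (_ : Group H₀) (_ : Finite H₀), B H₀ ∧
      ∀ (H₁ : Type) [Group H₁] [Finite H₁], B H₁ → (A T ↔ F (T ≀ᵣ (H₀ × H₁))) := by
  obtain ⟨H₀, _, _, h0, h1⟩ := exists_test he d.hB (d.sub_right hX) T
    (fun p _ hc => absurd hc (d.not_closed he hX p))
  refine ⟨H₀, inferInstance, inferInstance, h0, fun H₁ _ _ h2 => ?_⟩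
  rw [d.iff]
  exact wreath_test d.hA d.hB (d.hB.prod h0 h2) (h1 H₁ h2)

lemma orderOf_inr {H₀ H₁ : Type} [Group H₀] [Group H₁] (h : H₁) :
    orderOf ((1, h) : H₀ × H₁) = orderOf h :=
  orderOf_injective (MonoidHom.inr H₀ H₁) (fun _ _ e => congrArg Prod.snd e) h

/-- formations of bounded exponent -/
lemma good_of_bounded : ∀ n : ℕ, 0 < n → ∀ F : GroupClass, IsFormation F →
    (∀ (G : Type) [Group G] [Finite G], F G → ∀ g : G, g ^ n = 1) → Good F := by
  intro n
  induction n using Nat.strong_induction_on with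
  | _ n ih =>
    intro hn F hF hb
    have hX : Sub F (X n) := fun G _ _ h => X_of_pow_eq_one (hb G h)
    refine good_of_dec hF fun A B d => ?_
    have key : ∀ (T : Type) [Group T] [Finite T], A T → ∀ (H : Type) [Group H] [Finite H], B H →
        ∀ (t : T) (h : H), orderOf h * orderOf t ∣ n := by
      intro T _ _ hT H _ _ hH t h
      obtain ⟨H₀, _, _, -, h1⟩ := d.test hn hX T
      have := order_dvd_of_elt_pow t ((1, h) : H₀ × H) (hb _ ((h1 H hH).mp hT) _)
      rwa [orderOf_inr] at this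
    obtain ⟨T₁, _, _, hT₁, _⟩ := d.left_nontrivial
    obtain ⟨H₁, _, _, hH₁, _⟩ := d.right_nontrivial
    obtain ⟨t₁, ht₁⟩ := exists_ne (1 : T₁)
    obtain ⟨h₁, hh₁⟩ := exists_ne (1 : H₁)
    have o1 : 1 < orderOf t₁ := by
      have := orderOf_pos t₁
      have : orderOf t₁ ≠ 1 := by simpa using ht₁
      omega
    have o2 : 1 < orderOf h₁ := by
      have := orderOf_pos h₁
      have : orderOf h₁ ≠ 1 := by simpa using hh₁
      omega
    have k1 := key T₁ hT₁ H₁ hH₁ t₁ h₁
    constructor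
    · refine ih (n / orderOf h₁) (Nat.div_lt_self hn o2)
        (Nat.div_pos (Nat.le_of_dvd hn ((Dvd.intro _ rfl).trans k1)) (by omega)) A d.hA ?_
      intro T _ _ hT t
      exact orderOf_dvd_iff_pow_eq_one.mp (Nat.dvd_div_of_mul_dvd (key T hT H₁ hH₁ t h₁))
    · refine ih (n / orderOf t₁) (Nat.div_lt_self hn o1)
        (Nat.div_pos (Nat.le_of_dvd hn ((Dvd.intro_left _ rfl).trans k1)) (by omega)) B d.hB ?_
      intro H _ _ hH h
      exact orderOf_dvd_iff_pow_eq_one.mp
        (Nat.dvd_div_of_mul_dvd (mul_comm (orderOf h) _ ▸ key T₁ hT₁ H hH t₁ h))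

/-- the class of `q`-groups -/
def PG (q : ℕ) : GroupClass := fun G _ _ => IsPGroup q G

lemma mem_of_card_dvd {q : ℕ} [hq : Fact q.Prime] (hA : IsFormation A) (hC : A (Cy q))
    (K : Type) [Group K] [Finite K] (hK : Nat.card K ∣ q) : A K := by
  rcases (Nat.dvd_prime hq.out).mp hK with h | h
  · have : Subsingleton K := (Nat.card_eq_one_iff_unique.mp h).1
    exact hA.triv K
  · exact hA.iso (mulEquivOfPrimeCardEq (card_Cy q) h) hC

lemma Cy_mem {q : ℕ} [Fact q.Prime] (hA : IsFormation A) (hq : Sub A (PG q))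
    (h : ∃ (T : Type) (_ : Group T) (_ : Finite T), A T ∧ Nontrivial T) : A (Cy q) := by
  obtain ⟨T, _, _, hT, _⟩ := h
  obtain ⟨φ, hφ⟩ := exists_surj_Cy (hq T hT)
  exact hA.surj φ hφ hT

lemma Dec.left_PG (d : Dec F A B) {q : ℕ} (hq : q.Prime) (h : Sub F (PG q)) : Sub A (PG q) := by
  intro T _ _ hT
  obtain ⟨H₀, _, _, h0, h1⟩ := d.test one_pos (fun G _ _ hG => X_of_isPGroup hq (h G hG)) T
  exact (h _ ((h1 H₀ h0).mp hT)).of_injective diag diag_injective

lemma good_of_PG_aux {q : ℕ} [hq : Fact q.Prime] : ∀ m : ℕ, ∀ F : GroupClass, IsFormation F →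
    Sub F (PG q) → (∃ (P : Type) (_ : Group P) (_ : Finite P), IsPGroup q P ∧ ¬ F P ∧
      Nat.card P = m) → Good F := by
  intro m
  induction m using Nat.strong_induction_on with
  | _ m ih =>
    rintro F hF hs ⟨P, _, _, hP, hn, rfl⟩
    refine good_of_dec hF fun A B d => ?_
    have hsA := d.left_PG hq.out hs
    have hsB := d.sub_right hs
    have cA := Cy_mem d.hA hsA d.left_nontrivial
    have cB := Cy_mem d.hB hsB d.right_nontrivial
    have : Nontrivial P := by
      by_contra hc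
      have := not_nontrivial_iff_subsingleton.mp hc
      exact hn (hF.triv P)
    constructor
    · refine ih _ ?_ A d.hA hsA ⟨residual B P, inferInstance, inferInstance, hP.to_subgroup _,
        fun h => hn (d.iff.mpr h), rfl⟩
      obtain ⟨φ, hφ⟩ := exists_surj_Cy hP
      have h1 := d.hB.residual_le_ker φ hφ cB
      have h2 : residual B P ≠ ⊤ := by
        intro h
        obtain ⟨y, hy⟩ := exists_ne (1 : Cy q)
        obtain ⟨x, rfl⟩ := hφ y
        exact hy (h1 (h ▸ trivial))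
      refine lt_of_le_of_ne (Subgroup.card_le_card_group _) ?_
      exact fun h => h2 (Subgroup.eq_top_of_card_eq _ h)
    · have := hP.center_nontrivial
      obtain ⟨k, hk, hc⟩ := (hP.to_subgroup (Subgroup.center P)).nontrivial_iff_card.mp this
      obtain ⟨z, hz⟩ := exists_prime_orderOf_dvd_card' (G := Subgroup.center P) q
        (by rw [hc]; exact dvd_pow_self q hk.ne')
      have hZ : (Subgroup.zpowers (z : P)).Normal := by
        constructor
        rintro _ ⟨j, rfl⟩ g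
        have := Subgroup.mem_center_iff.mp (Subgroup.zpow_mem _ z.2 j) g
        simp only [this, mul_inv_cancel_right]
        exact ⟨j, rfl⟩
      have hcard : Nat.card (Subgroup.zpowers (z : P)) = q := by
        rw [Nat.card_zpowers, Subgroup.orderOf_coe, hz]
      refine ih _ ?_ B d.hB hsB ⟨P ⧸ Subgroup.zpowers (z : P), inferInstance, inferInstance,
        hP.to_quotient _, fun h => hn (d.iff.mpr ?_), rfl⟩
      · have h1 := Subgroup.card_eq_card_quotient_mul_card_subgroup (Subgroup.zpowers (z : P))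
        rw [hcard] at h1
        have h2 : 0 < Nat.card (P ⧸ Subgroup.zpowers (z : P)) := Nat.card_pos
        nlinarith [hq.out.two_le]
      · have h1 := d.hB.residual_le_ker _ (QuotientGroup.mk'_surjective _) h
        rw [QuotientGroup.ker_mk'] at h1
        exact mem_of_card_dvd d.hA cA _ (hcard ▸ Subgroup.card_dvd_of_le h1)

lemma good_of_PG {q : ℕ} (hq : q.Prime) (hF : IsFormation F) (hs : Sub F (PG q)) : Good F := by
  have := Fact.mk hq
  by_cases hall : Sub (PG q) F
  · refine good_of_dec hF fun A B d => ?_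
    exfalso
    apply d.neA
    funext P _ _
    refine propext ⟨fun h => hall P (d.left_PG hq hs P h), fun h => ?_⟩
    obtain ⟨H₀, _, _, h0, h1⟩ := d.test one_pos (fun G _ _ hG => X_of_isPGroup hq (hs G hG)) P
    have h2 : IsPGroup q (H₀ × H₀) := hs _ (d.right_le (d.hB.prod h0 h0))
    exact (h1 H₀ h0).mpr (hall _ (isPGroup_wreath (hs P h) h2))
  · unfold Sub at hall
    push Not at hall
    obtain ⟨P, _, _, h1, h2⟩ := hall
    exact good_of_PG_aux _ F hF hs ⟨P, inferInstance, inferInstance, h1, h2, rfl⟩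

lemma Dec.left_PG_of_elt (d : Dec F A B) {e : ℕ} (he : 0 < e) (hX : Sub F (X e)) {q : ℕ}
    (hq : q.Prime) {H : Type} [Group H] [Finite H] (hH : B H) {h : H} (h1 : ∃ k, h ^ q ^ k = 1)
    (h2 : h ^ e ≠ 1) : Sub A (PG q) := by
  intro T _ _ hT
  obtain ⟨H₀, _, _, -, h3⟩ := d.test he hX T
  obtain ⟨k, hk⟩ := h1
  exact isPGroup_of_X_wreath (h := ((1, h) : H₀ × H)) (hX _ ((h3 H hH).mp hT)) hq
    ⟨k, by simp [hk]⟩ (by simpa using h2)

lemma Dec.good_left (d : Dec F A B) {e : ℕ} (he : 0 < e) (hX : Sub F (X e))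
    (ih : ∀ e' < e, 0 < e' → ∀ F : GroupClass, IsFormation F → Sub F (X e') → Good F) :
    Good A := by
  obtain ⟨H, _, _, hH, _⟩ := d.right_nontrivial
  obtain ⟨r, hr, hrH⟩ := Nat.exists_prime_and_dvd (Finite.one_lt_card (α := H)).ne'
  have := Fact.mk hr
  obtain ⟨h, hh⟩ := exists_prime_orderOf_dvd_card' r hrH
  by_cases hre : r ∣ e
  · refine ih (e / r) (Nat.div_lt_self he hr.one_lt) (Nat.div_pos (Nat.le_of_dvd he hre) hr.pos)
      A d.hA ?_
    intro T _ _ hT
    obtain ⟨H₀, _, _, -, h3⟩ := d.test he hX T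
    exact X_div_of_X_wreath (h := ((1, h) : H₀ × H)) (hX _ ((h3 H hH).mp hT)) hr
      (by rw [orderOf_inr, hh]) hre
  · refine good_of_PG hr d.hA (d.left_PG_of_elt he hX hr hH (h := h)
      ⟨1, by rw [pow_one, ← hh, pow_orderOf_eq_one]⟩ ?_)
    rwa [ne_eq, ← orderOf_dvd_iff_pow_eq_one, hh]

/-- only `q`-elements can have order not dividing `e` -/
def Only (B : GroupClass) (e q : ℕ) : Prop :=
  ∀ (H : Type) [Group H] [Finite H], B H → ∀ q' : ℕ, q'.Prime → ∀ h : H,
    (∃ k, h ^ q' ^ k = 1) → h ^ e ≠ 1 → q' = q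

lemma bounded_or (B : GroupClass) (e : ℕ) :
    (∀ (G : Type) [Group G] [Finite G], B G → ∀ g : G, g ^ e = 1) ∨
    ∃ (H : Type) (_ : Group H) (_ : Finite H), B H ∧ ∃ q : ℕ, q.Prime ∧ ∃ h : H,
      (∃ k, h ^ q ^ k = 1) ∧ h ^ e ≠ 1 := by
  by_cases h : ∀ (G : Type) [Group G] [Finite G], B G → ∀ g : G, g ^ e = 1
  · exact Or.inl h
  · push Not at h
    obtain ⟨G, _, _, hG, g, hg⟩ := h
    exact Or.inr ⟨G, inferInstance, inferInstance, hG, exists_pelt hg⟩

lemma good_right_aux {e : ℕ} (he : 0 < e)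
    (ihe : ∀ e' < e, 0 < e' → ∀ F : GroupClass, IsFormation F → Sub F (X e') → Good F)
    {q : ℕ} [hq : Fact q.Prime] : ∀ m : ℕ, ∀ B : GroupClass, IsFormation B → Sub B (X e) →
    Only B e q → (∃ (H : Type) (_ : Group H) (_ : Finite H), B H ∧ ¬ B (Cy q ≀ᵣ H) ∧
      Nat.card H = m) → Good B := by
  intro m
  induction m using Nat.strong_induction_on with
  | _ m ih =>
    rintro B hB hX ho ⟨H, _, _, hH, hn, rfl⟩
    refine good_of_dec hB fun A₂ B₂ d => ⟨d.good_left he hX ihe, ?_⟩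
    rcases bounded_or B₂ e with hb | ⟨H₁, _, _, h1, q', hq', h, h2, h3⟩
    · exact good_of_bounded e he B₂ d.hB hb
    obtain rfl : q' = q := ho H₁ (d.right_le h1) q' hq' h h2 h3
    have hsA := d.left_PG_of_elt he hX hq' h1 h2 h3
    have cA := Cy_mem d.hA hsA d.left_nontrivial
    have hR : Nontrivial (residual B₂ H) := by
      rw [Subgroup.nontrivial_iff_ne_bot]
      intro h0
      have hH₂ := d.hB.iff_residual_eq_bot.mpr h0
      apply hn
      rw [d.iff]
      have hD := residual_wreath_right (T := Cy q') d.hB hH₂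
      refine d.hA.subdirect (H := fun x : H => (coord _ hD x).range)
        (fun x => (coord _ hD x).rangeRestrict) (fun x => MonoidHom.rangeRestrict_surjective _)
        (fun x => mem_of_card_dvd d.hA cA _ ?_) ?_
      · have := Subgroup.card_subgroup_dvd_card (coord _ hD x).range
        rwa [card_Cy] at this
      · intro g hg
        apply Subtype.ext
        ext x
        · exact congrArg (fun y => Multiplicative.toAdd (y : Cy q')) (congrArg Subtype.val (hg x))
        · exact hD g.1 g.2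
    obtain ⟨φ, hφ⟩ := exists_surj_Cy (hsA _ (d.iff.mp hH))
    refine ih _ ?_ B₂ d.hB (d.sub_right hX) (fun K _ _ hK => ho K (d.right_le hK))
      ⟨H ⧸ residual B₂ H, inferInstance, inferInstance, d.hB.quot_residual H, fun hc => ?_, rfl⟩
    · have h1 := Subgroup.card_eq_card_quotient_mul_card_subgroup (residual B₂ H)
      have h2 : 0 < Nat.card (H ⧸ residual B₂ H) := Nat.card_pos
      have h3 : 1 < Nat.card (residual B₂ H) := Finite.one_lt_card
      nlinarith
    · obtain ⟨y, hy⟩ := exists_ne (1 : Cy q')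
      obtain ⟨x, rfl⟩ := hφ y
      exact hy (hom_trivial d.hB _ le_rfl hc φ x)

theorem good_of_X : ∀ e : ℕ, 0 < e → ∀ F : GroupClass, IsFormation F → Sub F (X e) → Good F := by
  intro e
  induction e using Nat.strong_induction_on with
  | _ e ih =>
    intro he F hF hX
    refine good_of_dec hF fun A B d => ⟨d.good_left he hX ih, ?_⟩
    rcases bounded_or B e with hb | ⟨H₁, _, _, h1, q, hq, h, h2, h3⟩
    · exact good_of_bounded e he B d.hB hb
    have := Fact.mk hq
    have hnc := d.not_closed he hX q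
    unfold Closed at hnc
    push Not at hnc
    obtain ⟨H, _, _, h4, h5⟩ := hnc
    refine good_right_aux he ih (q := q) _ B d.hB (d.sub_right hX) ?_
      ⟨H, inferInstance, inferInstance, h4, h5, rfl⟩
    intro K _ _ hK q' hq' k k1 k2
    by_contra hne
    have := Fact.mk hq'
    obtain ⟨T, _, _, hT, _⟩ := d.left_nontrivial
    have a := d.left_PG_of_elt he hX hq h1 h2 h3 T hT
    have b := d.left_PG_of_elt he hX hq' hK k1 k2 T hT
    have c := IsPGroup.disjoint_of_ne q' q hne ⊤ ⊤ (b.to_subgroup ⊤) (a.to_subgroup ⊤)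
    simp at c

theorem main (G₀ : Type) [Group G₀] [Finite G₀] (F : GroupClass) (hF : IsFormation F)
    (hsub : ∀ (G : Type) [Group G] [Finite G], F G → satFormGen G₀ G) :
    ∃ (F₁ : GroupClass) (L : List GroupClass),
      (∀ Y ∈ F₁ :: L, IsFormation Y ∧ NonDecomposable Y) ∧ F = formProdList F₁ L :=
  good_of_X (Nat.card G₀) Nat.card_pos F hF fun G _ _ hG =>
    hsub G hG _ (isFormation_X _) (isSaturated_X _) (X_of_pow_eq_one fun _ => pow_card_eq_one')

end Pool.Agent.P.MP_58728c_al
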