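import Pool.Agent.P.MP_58728c_al.Uniq5

open Pool.Agent.P.MP_58728c_al in
/-- Let `F` be a nontrivial formation lying in every saturated formation that contains all finite
groups of exponent dividing `n` (with `n = |G₀|` this covers all subformations of the saturated
formation generated by `G₀`). Then `F` has exactly one factorisation `F₁ F₂ ⋯ F_t` into nontrivial
non-decomposable formations if and only if `𝔑_q F ≠ F` for every prime `q`. -/
theorem Pool.Agent.Results.MP_58728c_al.UniqueFactor.result
    (n : ℕ) (hn : 0 < n) (F : GroupClass) (hF : IsFormation F)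
    (hsub : ∀ (G : Type) [Group G] [Finite G], F G →
      ∀ S : GroupClass, IsFormation S → IsSaturated S →
        (∀ (H : Type) [Group H] [Finite H], (∀ h : H, h ^ n = 1) → S H) → S G)
    (hnt : F ≠ fun G _ _ => Subsingleton G) :
    (∃! l : GroupClass × List GroupClass,
      (∀ Y ∈ l.1 :: l.2, IsFormation Y ∧ NonDecomposable Y ∧ Y ≠ fun G _ _ => Subsingleton G) ∧
        F = formProdList l.1 l.2) ↔
      ∀ q : ℕ, q.Prime → formProd (fun G _ _ => IsPGroup q G) F ≠ F :=
  unique_of_X hn hF (fun G _ _ hG => hsub G hG _ (isFormation_X n) (isSaturated_X n)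
    fun _ _ _ h => X_of_pow_eq_one h) hnt
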