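import Pool.Agent.P.MP_58728c_al.Main

namespace Pool.Agent.P.MP_58728c_al

open Function RegularWreathProduct

variable {A B F : GroupClass}

lemma lcs_comm {G : Type} [Group G] (j : ℕ) : ∀ i : ℕ,
    ⁅(⊤ : Subgroup G).lowerCentralSeries i, (⊤ : Subgroup G).lowerCentralSeries j⁆ ≤
      (⊤ : Subgroup G).lowerCentralSeries (i + j + 1) := by
  induction j with
  | zero => intro i; exact le_rfl
  | succ j ih =>
    intro i
    let N := (⊤ : Subgroup G).lowerCentralSeries (i + (j + 1) + 1)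
    have key : ∀ H : Subgroup G, H ≤ N ↔ H.map (QuotientGroup.mk' N) = ⊥ := by
      intro H
      rw [Subgroup.map_eq_bot_iff, QuotientGroup.ker_mk']
    change _ ≤ N
    rw [Subgroup.commutator_comm, Subgroup.lowerCentralSeries_succ, key, Subgroup.map_commutator,
      Subgroup.map_commutator]
    apply Subgroup.commutator_commutator_eq_bot_of_rotate
    · rw [← Subgroup.map_commutator, ← Subgroup.map_commutator, ← key,
        Subgroup.commutator_comm ⊤, ← Subgroup.lowerCentralSeries_succ]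
      have := ih (i + 1)
      rwa [show i + 1 + j + 1 = i + (j + 1) + 1 by omega] at this
    · rw [← Subgroup.map_commutator, ← Subgroup.map_commutator, ← key]
      exact Subgroup.commutator_mono (ih i) le_rfl

/-- a filtration of a group by normal subgroups -/
structure Filt (Q : Type) [Group Q] where
  s : ℕ → Subgroup Q
  normal : ∀ i, (s i).Normal
  anti : ∀ i, s (i + 1) ≤ s i
  comm : ∀ i j, ∀ a ∈ s i, ∀ b ∈ s j, a * b * a⁻¹ * b⁻¹ ∈ s (i + j + 1)

lemma conj_aux1 {G : Type} [Group G] (x y b : G) (h : x⁻¹ * y * b = b * (x⁻¹ * y)) :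
    x * b * x⁻¹ = y * b * y⁻¹ := by
  calc x * b * x⁻¹ = x * (b * (x⁻¹ * y)) * y⁻¹ := by group
    _ = _ := by rw [← h]; group

lemma conj_aux2 {G : Type} [Group G] (a b x y : G) (h1 : a⁻¹ * b * x = x * (a⁻¹ * b))
    (h2 : b * (x⁻¹ * y) = x⁻¹ * y * b) : a * x * a⁻¹ * x⁻¹ = b * y * b⁻¹ * y⁻¹ := by
  calc a * x * a⁻¹ * x⁻¹ = a * (x * (a⁻¹ * b)) * b⁻¹ * x⁻¹ := by group
    _ = b * x * b⁻¹ * (b * (x⁻¹ * y)) * (b * (x⁻¹ * y))⁻¹ * x⁻¹ := by rw [← h1]; group
    _ = b * x * b⁻¹ * (x⁻¹ * y * b) * (b * (x⁻¹ * y))⁻¹ * x⁻¹ := by rw [h2]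
    _ = b * x * (b⁻¹ * (x⁻¹ * y * b)) * (b * (x⁻¹ * y))⁻¹ * x⁻¹ := by group
    _ = b * x * (b⁻¹ * (b * (x⁻¹ * y))) * (x⁻¹ * y * b)⁻¹ * x⁻¹ := by rw [h2]
    _ = _ := by group

/-- pairs congruent modulo a normal subgroup -/
def pairs {Q : Type} [Group Q] (N : Subgroup Q) [hN : N.Normal] : Subgroup (Q × Q) where
  carrier := {x | x.1⁻¹ * x.2 ∈ N}
  mul_mem' := by
    intro a b ha hb
    have := N.mul_mem (hN.conj_mem _ ha b.1⁻¹) hb
    simpa [mul_assoc] using this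
  one_mem' := by simp
  inv_mem' := by
    intro a ha
    have := hN.conj_mem _ (N.inv_mem ha) a.1
    simpa [mul_assoc] using this

lemma mem_pairs {Q : Type} [Group Q] {N : Subgroup Q} [N.Normal] {x : Q × Q} :
    x ∈ pairs N ↔ (x.1 : Q ⧸ N) = x.2 := QuotientGroup.eq.symm

lemma Filt.commute {Q : Type} [Group Q] (f : Filt Q) {i j k : ℕ} (h : i + j + 1 = k) {a b : Q}
    (ha : a ∈ f.s i) (hb : b ∈ f.s j) :
    haveI := f.normal k
    (a : Q ⧸ f.s k) * b = b * a := by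
  have := f.normal k
  have h1 : ((a * b * a⁻¹ * b⁻¹ : Q) : Q ⧸ f.s k) = 1 :=
    (QuotientGroup.eq_one_iff _).mpr (h ▸ f.comm i j a ha b hb)
  simp only [QuotientGroup.mk_mul, QuotientGroup.mk_inv] at h1
  rwa [mul_inv_eq_one, mul_inv_eq_iff_eq_mul] at h1

/-- the doubled filtration -/
def Filt.double {Q : Type} [Group Q] (f : Filt Q) : Filt (haveI := f.normal 0; pairs (f.s 0)) :=
  haveI := f.normal
  { s := fun i => ((f.s i).prod (f.s i) ⊓ pairs (f.s (i + 1))).comap (pairs (f.s 0)).subtype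
    normal := by
      intro i
      constructor
      rintro ⟨⟨a, b⟩, hab⟩ ⟨⟨ha, hb⟩, h⟩ ⟨⟨x, y⟩, hxy⟩
      refine ⟨⟨(f.normal i).conj_mem a ha x, (f.normal i).conj_mem b hb y⟩, ?_⟩
      have h1 : (a : Q ⧸ f.s (i + 1)) = b := mem_pairs.mp h
      have h2 := f.commute (k := i + 1) (a := x⁻¹ * y) (b := b) (by omega) hxy hb
      refine mem_pairs.mpr ?_
      change ((x * a * x⁻¹ : Q) : Q ⧸ f.s (i + 1)) = (y * b * y⁻¹ : Q)
      simp only [QuotientGroup.mk_mul, QuotientGroup.mk_inv] at h2 ⊢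
      rw [h1]
      exact conj_aux1 _ _ _ h2
    anti := by
      rintro i ⟨⟨a, b⟩, hab⟩ ⟨⟨ha, hb⟩, h⟩
      exact ⟨⟨f.anti i ha, f.anti i hb⟩, f.anti (i + 1) h⟩
    comm := by
      rintro i j ⟨⟨a, b⟩, hab⟩ ⟨⟨ha, hb⟩, h⟩ ⟨⟨x, y⟩, hxy⟩ ⟨⟨hx, hy⟩, h'⟩
      refine ⟨⟨f.comm i j a ha x hx, f.comm i j b hb y hy⟩, ?_⟩
      have h1 := f.commute (k := i + j + 1 + 1) (a := a⁻¹ * b) (b := x) (by omega) h hx
      have h2 := f.commute (k := i + j + 1 + 1) (a := b) (b := x⁻¹ * y) (by omega) hb h'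
      refine mem_pairs.mpr ?_
      change ((a * x * a⁻¹ * x⁻¹ : Q) : Q ⧸ f.s (i + j + 1 + 1)) = (b * y * b⁻¹ * y⁻¹ : Q)
      simp only [QuotientGroup.mk_mul, QuotientGroup.mk_inv] at h1 h2 ⊢
      exact conj_aux2 _ _ _ _ h1 h2 }

lemma neumann_aux (hF : IsFormation F) (d : ℕ) : ∀ (Q : Type) [Group Q] [Finite Q] (f : Filt Q)
    (D : Subgroup Q), F Q → (∀ x : Q, ∃ y ∈ D, y⁻¹ * x ∈ f.s 0) →
    (∀ r ∈ residual F D, (∀ i < d, (r : Q) ∈ f.s i) → r = 1) → F D := by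
  induction d with
  | zero =>
    intro Q _ _ f D _ _ h
    rw [hF.iff_residual_eq_bot, eq_bot_iff]
    exact fun r hr => h r hr (by simp)
  | succ d ih =>
    intro Q _ _ f D hQ hD h
    have := f.normal 0
    let Q' := pairs (f.s 0)
    let p1 : Q' →* Q := (MonoidHom.fst Q Q).comp Q'.subtype
    let p2 : Q' →* Q := (MonoidHom.snd Q Q).comp Q'.subtype
    have hQ' : F Q' := by
      refine hF.subdirect₂ p1 p2 (fun x => ⟨⟨(x, x), mem_pairs.mpr rfl⟩, rfl⟩)
        (fun x => ⟨⟨(x, x), mem_pairs.mpr rfl⟩, rfl⟩) hQ hQ ?_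
      intro g a b
      exact Subtype.ext (Prod.ext a b)
    let D' : Subgroup Q' := D.comap p1
    let g1 : D' →* D := (p1.comp D'.subtype).codRestrict D fun x => x.2
    have hg1 : Surjective g1 := fun x => ⟨⟨⟨(x, x), mem_pairs.mpr rfl⟩, x.2⟩, rfl⟩
    have hg2 : Surjective (p2.comp D'.subtype) := by
      intro x
      obtain ⟨y, hy, hyx⟩ := hD x
      exact ⟨⟨⟨(y, x), hyx⟩, hy⟩, rfl⟩
    have k1 : ∀ r ∈ residual F D', g1 r ∈ residual F D := by
      intro r hr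
      rw [← hF.map_residual g1 hg1]
      exact Subgroup.mem_map_of_mem _ hr
    have k2 : ∀ r ∈ residual F D', r.1.1.2 = 1 := fun r hr => hF.residual_le_ker _ hg2 hQ hr
    refine hF.surj g1 hg1 (ih Q' f.double D' hQ' ?_ ?_)
    · rintro ⟨⟨a, b⟩, hab⟩
      obtain ⟨y, hy, hya⟩ := hD a
      refine ⟨⟨(y, b * (y⁻¹ * a)⁻¹), ?_⟩, hy, ⟨hya, ?_⟩, ?_⟩
      · have := (f.s 0).mul_mem ((f.s 0).mul_mem hya hab) ((f.s 0).inv_mem hya)
        change y⁻¹ * (b * (y⁻¹ * a)⁻¹) ∈ f.s 0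
        simpa [mul_assoc] using this
      · change (b * (y⁻¹ * a)⁻¹)⁻¹ * b ∈ f.s 0
        simpa [mul_assoc] using hya
      · have := f.normal (0 + 1)
        refine mem_pairs.mpr ?_
        change ((y⁻¹ * a : Q) : Q ⧸ f.s (0 + 1)) = ((b * (y⁻¹ * a)⁻¹)⁻¹ * b : Q)
        simp [mul_assoc]
    · intro r hr h3
      have h4 : ∀ i < d + 1, r.1.1.1 ∈ f.s i := by
        intro i hi
        have h5 : r.1.1.1⁻¹ * r.1.1.2 ∈ f.s i := by
          rcases i with _ | i
          · exact r.1.2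
          · exact (h3 i (by omega)).2
        rwa [k2 r hr, mul_one, inv_mem_iff] at h5
      have h5 := congrArg Subtype.val (h _ (k1 r hr) h4)
      exact Subtype.ext (Subtype.ext (Prod.ext h5 (k2 r hr)))

/-- subgroups of nilpotent members of a formation are members -/
lemma neumann (hF : IsFormation F) {Q : Type} [Group Q] [Finite Q] [hn : Group.IsNilpotent Q]
    (hQ : F Q) (D : Subgroup Q) : F D := by
  obtain ⟨n, hn⟩ := Subgroup.nilpotent_iff_lowerCentralSeries.mp hn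
  refine neumann_aux hF (n + 1) Q ⟨(⊤ : Subgroup Q).lowerCentralSeries, fun _ => inferInstance,
    fun i => Subgroup.lowerCentralSeries_antitone ⊤ (Nat.le_succ i),
    fun i j a ha b hb => lcs_comm j i (Subgroup.commutator_mem_commutator ha hb)⟩ D hQ
    (fun x => ⟨1, D.one_mem, trivial⟩) ?_
  intro r _ h
  have h1 : (r : Q) ∈ (⊤ : Subgroup Q).lowerCentralSeries n := h n (by omega)
  rw [hn] at h1
  exact Subtype.ext h1

/-- `G` is a section of `R` -/
def Sec (G R : Type) [Group G] [Group R] : Prop :=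
  ∃ (S : Type) (_ : Group S) (i : S →* R) (f : S →* G), Injective i ∧ Surjective f

section sec

variable {G R W : Type} [Group G] [Group R] [Group W]

lemma Sec.refl : Sec G G :=
  ⟨G, inferInstance, MonoidHom.id G, MonoidHom.id G, injective_id, surjective_id⟩

lemma Sec.of_inj (i : G →* R) (hi : Injective i) : Sec G R :=
  ⟨G, inferInstance, i, MonoidHom.id G, hi, surjective_id⟩

lemma Sec.of_surj (f : R →* G) (hf : Surjective f) : Sec G R :=
  ⟨R, inferInstance, MonoidHom.id R, f, injective_id, hf⟩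

lemma Sec.trans (h1 : Sec G R) (h2 : Sec R W) : Sec G W := by
  obtain ⟨S, _, i, f, hi, hf⟩ := h1
  obtain ⟨S', _, i', f', hi', hf'⟩ := h2
  let P : Subgroup (S' × S) := MonoidHom.eqLocus (f'.comp (MonoidHom.fst S' S))
    (i.comp (MonoidHom.snd S' S))
  refine ⟨P, inferInstance, i'.comp ((MonoidHom.fst S' S).comp P.subtype),
    f.comp ((MonoidHom.snd S' S).comp P.subtype), ?_, ?_⟩
  · rw [injective_iff_map_eq_one]
    rintro ⟨⟨a, b⟩, hab⟩ h
    have h1 : a = 1 := (injective_iff_map_eq_one i').mp hi' a h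
    have h2 : f' a = i b := hab
    rw [h1, map_one] at h2
    exact Subtype.ext (Prod.ext h1 ((injective_iff_map_eq_one i).mp hi b h2.symm))
  · intro g
    obtain ⟨s, rfl⟩ := hf g
    obtain ⟨s', hs⟩ := hf' (i s)
    exact ⟨⟨(s', s), hs⟩, rfl⟩

lemma mapLeft_injective {H : Type} [Group H] {f : G →* R} (hf : Injective f) :
    Injective (mapLeft f : G ≀ᵣ H →* R ≀ᵣ H) := by
  intro a b h
  ext x
  · exact hf (congrArg (fun w : R ≀ᵣ H => w.left x) h)
  · exact congrArg (fun w : R ≀ᵣ H => w.right) h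

lemma Sec.wreath (h : Sec G R) (H : Type) [Group H] : Sec (G ≀ᵣ H) (R ≀ᵣ H) := by
  obtain ⟨S, _, i, f, hi, hf⟩ := h
  exact ⟨S ≀ᵣ H, inferInstance, mapLeft i, mapLeft f, mapLeft_injective hi, mapLeft_surjective hf⟩

lemma Sec.isPGroup {p : ℕ} (h : Sec G R) (hR : IsPGroup p R) : IsPGroup p G := by
  obtain ⟨S, _, i, f, hi, hf⟩ := h
  exact (hR.of_injective i hi).of_surjective f hf

lemma Sec.X [Finite G] [Finite R] {e : ℕ} (h : Sec G R) (hR : X e R) : X e G := by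
  obtain ⟨S, _, i, f, hi, hf⟩ := h
  have : Finite S := Finite.of_injective i hi
  refine (isFormation_X e).surj f hf ?_
  rintro q hq x ⟨k, hk⟩
  obtain ⟨N, hN, hp, hm⟩ := hR q hq (i x) ⟨k, by rw [← map_pow, hk, map_one]⟩
  exact ⟨N.comap i, inferInstance, hp.comap_of_injective i hi, by simpa using hm⟩

lemma Sec.mem_of_isPGroup [Finite G] [Finite R] {p : ℕ} [Fact p.Prime] (hF : IsFormation F)
    (h : Sec G R) (hR : F R) (hp : IsPGroup p R) : F G := by
  obtain ⟨S, _, i, f, hi, hf⟩ := h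
  have : Finite S := Finite.of_injective i hi
  have := hp.isNilpotent
  exact hF.surj f hf (hF.iso (MonoidHom.ofInjective hi).symm (neumann hF hR i.range))

end sec

end Pool.Agent.P.MP_58728c_al
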