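import Pool.Agent.P.MP_58728c_al.Uniq1

namespace Pool.Agent.P.MP_58728c_al

open Function RegularWreathProduct

section wr

variable {T Y : Type} [Group T] [Group Y]

/-- restriction to a subgroup of the top group -/
def restr (R : Subgroup (T ≀ᵣ Y)) (K : Subgroup Y) :
    (R ⊓ K.comap (rightHom : T ≀ᵣ Y →* Y) : Subgroup (T ≀ᵣ Y)) →* T ≀ᵣ K where
  toFun r := ⟨fun x => r.1.left x, ⟨r.1.right, r.2.2⟩⟩
  map_one' := by ext <;> simp
  map_mul' a b := by ext <;> simp

lemma sec_of_base (R : Subgroup (T ≀ᵣ Y)) (K : Subgroup Y)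
    (hK : ∀ z ∈ K, ∃ r ∈ R, r.right = z)
    (hb : ∀ g : K → T, ∃ c ∈ R, c.right = 1 ∧ ∀ x : K, c.left x = g x) : Sec (T ≀ᵣ K) R := by
  refine ⟨_, inferInstance, Subgroup.inclusion inf_le_left, restr R K,
    Subgroup.inclusion_injective _, ?_⟩
  intro w
  obtain ⟨r, hr, e⟩ := hK w.right w.right.2
  obtain ⟨c, hc, c1, c2⟩ := hb fun x => w.left x * (r.left x)⁻¹
  refine ⟨⟨c * r, R.mul_mem hc hr, ?_⟩, ?_⟩
  · simp [c1, e]
  · ext x
    · simp [restr, c1, c2]
    · simp [restr, c1, e]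

lemma sec2 (R : Subgroup (T ≀ᵣ Y)) [hR : R.Normal] (K : Subgroup Y)
    (hK : ∀ z ∈ K, ∃ r ∈ R, r.right = z) {n : T ≀ᵣ Y} (hn : n ∈ R) (hnK : n.right ∉ K) :
    Sec (T ≀ᵣ K) R := by
  classical
  refine sec_of_base R K hK fun g => ?_
  let b : T ≀ᵣ Y := ⟨fun y => if h : y ∈ K then g ⟨y, h⟩ else 1, 1⟩
  refine ⟨b * n * b⁻¹ * n⁻¹, R.mul_mem (hR.conj_mem n hn b) (R.inv_mem hn), by simp [b], ?_⟩
  intro x
  have h1 : n.right⁻¹ * x ∉ K := fun h => hnK (by simpa using K.mul_mem h (K.inv_mem x.2))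
  simp [b, h1]

lemma sec1 (R : Subgroup (T ≀ᵣ Y)) [R.Normal] {n : T ≀ᵣ Y} (hn : n ∈ R) (hn1 : n.right ≠ 1) :
    Sec T R :=
  (Sec.of_inj diag diag_injective).trans
    (sec2 R ⊥ (fun z hz => ⟨1, R.one_mem, (Subgroup.mem_bot.mp hz).symm⟩) hn (by simpa using hn1))

open Classical in
/-- the base element with a single nontrivial coordinate -/
noncomputable def sing (y : Y) (t : T) : T ≀ᵣ Y := ⟨fun x => if x = y then t else 1, 1⟩

lemma exists_two (R : Subgroup (T ≀ᵣ Y)) [hR : R.Normal] {n : T ≀ᵣ Y} (hn : n ∈ R)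
    (hn1 : n.right ≠ 1) (t : T) : ∃ c ∈ R, c.right = 1 ∧ c.left 1 = t ∧
      c.left n.right = t⁻¹ ∧ ∀ x, x ≠ 1 → x ≠ n.right → c.left x = 1 := by
  classical
  let b : T ≀ᵣ Y := sing 1 t
  let a : T ≀ᵣ Y := sing n.right (n.left n.right)⁻¹
  have h1 : n.right⁻¹ ≠ 1 := by simpa using hn1
  refine ⟨a * (b * n * b⁻¹ * n⁻¹) * a⁻¹,
    hR.conj_mem _ (R.mul_mem (hR.conj_mem n hn b) (R.inv_mem hn)) a, by simp [a, b, sing],
    by simp [a, b, sing, hn1, hn1.symm], by simp [a, b, sing, hn1, mul_assoc], ?_⟩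
  intro x hx hx'
  have h2 : n.right⁻¹ * x ≠ 1 := fun h => hx' (inv_mul_eq_one.mp h).symm
  simp [a, b, sing, hx, hx', h2]

lemma exists_surj_Cy_comm (V : Type) [CommGroup V] [Finite V] [Nontrivial V] :
    ∃ q : ℕ, q.Prime ∧ q ∣ Nat.card V ∧ ∃ φ : V →* Cy q, Surjective φ := by
  obtain ⟨q, hq, hqV⟩ := Nat.exists_prime_and_dvd (Finite.one_lt_card (α := V)).ne'
  have := Fact.mk hq
  obtain ⟨t, ht⟩ := exists_prime_orderOf_dvd_card' q hqV
  let M := (powMonoidHom q : V →* V).range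
  have hM : M ≠ ⊤ := by
    intro h
    have h1 := Finite.injective_iff_surjective.mpr (MonoidHom.range_eq_top.mp h)
    have h2 : t = 1 := (injective_iff_map_eq_one _).mp h1 t (by
      rw [powMonoidHom_apply, ← ht, pow_orderOf_eq_one])
    rw [h2, orderOf_one] at ht
    exact hq.one_lt.ne ht
  have : Nontrivial (V ⧸ M) := QuotientGroup.nontrivial_iff.mpr hM
  have hp : IsPGroup q (V ⧸ M) := by
    intro x
    obtain ⟨v, rfl⟩ := QuotientGroup.mk_surjective x
    refine ⟨1, ?_⟩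
    rw [pow_one, ← QuotientGroup.mk_pow, QuotientGroup.eq_one_iff]
    exact ⟨v, rfl⟩
  obtain ⟨φ, hφ⟩ := exists_surj_Cy hp
  exact ⟨q, hq, hqV, φ.comp (QuotientGroup.mk' M), hφ.comp (QuotientGroup.mk'_surjective M)⟩

lemma sec3 [Finite T] [Finite Y] (R : Subgroup (T ≀ᵣ Y)) [hR : R.Normal] (K : Subgroup Y)
    [Fintype K] (hK : ∀ z ∈ K, ∃ r ∈ R, r.right = z) (hK1 : K ≠ ⊥) :
    Sec (T ≀ᵣ K) R ∨ ∃ q : ℕ, q.Prime ∧ q ∣ Nat.card T ∧ ∃ ψ : T →* Cy q, Surjective ψ ∧
      ∀ r ∈ R, r.right = 1 → ∀ y : Y, ∏ x : K, ψ (r.left (y * x)) = 1 := by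
  classical
  let L : Subgroup T :=
    { carrier := {t | ∃ r ∈ R, r.right = 1 ∧ r.left 1 = t ∧ ∀ x ∈ K, x ≠ 1 → r.left x = 1}
      mul_mem' := by
        rintro _ _ ⟨a, ha, a1, rfl, a2⟩ ⟨b, hb, b1, rfl, b2⟩
        refine ⟨a * b, R.mul_mem ha hb, by simp [a1, b1], by simp [a1], ?_⟩
        intro x hx hx1
        simp [a1, a2 x hx hx1, b2 x hx hx1]
      one_mem' := ⟨1, R.one_mem, rfl, rfl, fun _ _ _ => rfl⟩
      inv_mem' := by
        rintro _ ⟨a, ha, a1, rfl, a2⟩
        refine ⟨a⁻¹, R.inv_mem ha, by simp [a1], by simp [a1], ?_⟩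
        intro x hx hx1
        simp [a1, a2 x hx hx1] }
  have hLn : L.Normal := by
    constructor
    rintro _ ⟨a, ha, a1, rfl, a2⟩ t
    refine ⟨diag t * a * (diag t)⁻¹, hR.conj_mem a ha _, by simp [a1, diag], by simp [a1, diag], ?_⟩
    intro x hx hx1
    simp [a1, diag, a2 x hx hx1]
  by_cases hL : L = ⊤
  · left
    refine sec_of_base R K hK fun g => ?_
    have key : ∀ s : Finset K, ∃ c ∈ R, c.right = 1 ∧
        ∀ x : K, c.left x = if x ∈ s then g x else 1 := by
      intro s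
      induction s using Finset.induction_on with
      | empty => exact ⟨1, R.one_mem, rfl, by simp⟩
      | insert z s hz ih =>
        obtain ⟨c, hc, c1, c2⟩ := ih
        obtain ⟨a, ha, a1, a2, a3⟩ : g z ∈ L := hL ▸ trivial
        refine ⟨c * (inl (z : Y) * a * (inl (z : Y))⁻¹), R.mul_mem hc (hR.conj_mem a ha _),
          by simp [c1, a1], ?_⟩
        intro x
        by_cases hx : x = z
        · subst hx
          simp [c1, c2, a1, a2, hz]
        · have h1 : a.left ((z : Y)⁻¹ * x) = 1 := a3 _ (K.mul_mem (K.inv_mem z.2) x.2)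
            (fun h => hx (Subtype.ext (inv_mul_eq_one.mp h).symm))
          simp [c1, c2, a1, h1, hx]
    obtain ⟨c, hc, c1, c2⟩ := key Finset.univ
    exact ⟨c, hc, c1, by simpa using c2⟩
  · right
    obtain ⟨⟨z, hz⟩, hz1⟩ := Subgroup.ne_bot_iff_exists_ne_one.mp hK1
    have hz1' : z ≠ 1 := fun h => hz1 (Subtype.ext h)
    have hcomm : ∀ s t : T ⧸ L, s * t = t * s := by
      intro s t
      obtain ⟨s, rfl⟩ := QuotientGroup.mk_surjective s
      obtain ⟨t, rfl⟩ := QuotientGroup.mk_surjective t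
      obtain ⟨n, hn, rfl⟩ := hK z hz
      obtain ⟨c, hc, c1, c2, -, -⟩ := exists_two R hn hz1' t
      have : s * t * s⁻¹ * t⁻¹ ∈ L := by
        refine ⟨sing 1 s * c * (sing 1 s)⁻¹ * c⁻¹, R.mul_mem (hR.conj_mem c hc _) (R.inv_mem hc),
          by simp [sing, c1], by simp [sing, c1, c2], ?_⟩
        intro x _ hx1
        simp [sing, c1, hx1]
      have h1 := (QuotientGroup.eq_one_iff _).mpr this
      simp only [QuotientGroup.mk_mul, QuotientGroup.mk_inv] at h1
      rwa [mul_inv_eq_one, mul_inv_eq_iff_eq_mul] at h1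
    let _ : CommGroup (T ⧸ L) := { (inferInstance : Group (T ⧸ L)) with mul_comm := hcomm }
    have : Nontrivial (T ⧸ L) := QuotientGroup.nontrivial_iff.mpr hL
    obtain ⟨q, hq, hqd, φ, hφ⟩ := exists_surj_Cy_comm (T ⧸ L)
    let ψ : T →* Cy q := φ.comp (QuotientGroup.mk' L)
    have hψL : ∀ t ∈ L, ψ t = 1 := by
      intro t ht
      change φ (t : T ⧸ L) = 1
      rw [(QuotientGroup.eq_one_iff _).mpr ht, map_one]
    refine ⟨q, hq, hqd.trans (Subgroup.card_quotient_dvd_card L), ψ,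
      hφ.comp (QuotientGroup.mk'_surjective L), ?_⟩
    have key : ∀ s : Finset K, ∀ r ∈ R, r.right = 1 →
        (∀ x : K, x ≠ 1 → x ∉ s → r.left x = 1) → ∏ x : K, ψ (r.left x) = 1 := by
      intro s
      induction s using Finset.induction_on with
      | empty =>
        intro r hr r1 h
        apply Finset.prod_eq_one
        intro x _
        by_cases hx : x = 1
        · subst hx
          exact hψL _ ⟨r, hr, r1, rfl, fun y hy hy1 =>
            h ⟨y, hy⟩ (fun e => hy1 (congrArg Subtype.val e)) (by simp)⟩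
        · rw [h x hx (by simp), map_one]
      | insert w s hw ih =>
        intro r hr r1 h
        by_cases hw1 : w = 1
        · refine ih r hr r1 fun x hx hxs => h x hx ?_
          simp [hw1, hx, hxs]
        have hw1' : (w : Y) ≠ 1 := fun e => hw1 (Subtype.ext e)
        obtain ⟨n, hn, e⟩ := hK w w.2
        obtain ⟨c, hc, c1, c2, c3, c4⟩ := exists_two R hn (e ▸ hw1') (r.left w)
        rw [e] at c3 c4
        have h1 := ih (r * c) (R.mul_mem hr hc) (by simp [r1, c1]) (by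
          intro x hx hxs
          by_cases hxw : x = w
          · subst hxw
            simp [r1, c3]
          · have h2 := h x hx (by simp [hxw, hxs])
            have h3 := c4 x (fun e => hx (Subtype.ext e)) (fun e => hxw (Subtype.ext e))
            simp [r1, h2, h3])
        have h2 : ∏ x : K, ψ (c.left x) = 1 := by
          rw [Fintype.prod_eq_mul 1 w (Ne.symm hw1)]
          · simp [c2, c3]
          · rintro x ⟨hx, hxw⟩
            rw [c4 x (fun e => hx (Subtype.ext e)) (fun e => hxw (Subtype.ext e)), map_one]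
        simpa [r1, Finset.prod_mul_distrib, h2] using h1
    intro r hr r1 y
    have := key Finset.univ ((inl y)⁻¹ * r * (inl y)⁻¹⁻¹) (hR.conj_mem r hr _) (by simp [r1])
      (by simp)
    simpa [r1] using this

lemma pushRight_eq_one {C H : Type} [CommGroup C] [Group H] [Finite Y] (π : Y →* H)
    (K : Subgroup Y) [Fintype K] (hK : ∀ z ∈ K, π z = 1) (w : C ≀ᵣ Y) (hw : w.right = 1)
    (h : ∀ y : Y, ∏ x : K, w.left (y * x) = 1) : pushRight π w = 1 := by
  classical
  have := Fintype.ofFinite (Y ⧸ K)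
  let _ := Fintype.ofFinite Y
  ext y
  · simp only [pushRight, MonoidHom.coe_mk, OneHom.coe_mk, one_left, Pi.one_apply]
    have hb : Bijective (fun x : (Y ⧸ K) × K => x.1.out * (x.2 : Y)) := by
      constructor
      · rintro ⟨c, x⟩ ⟨c', x'⟩ h
        have h1 : c = c' := by simpa using congrArg (QuotientGroup.mk (s := K)) h
        subst h1
        exact Prod.ext rfl (Subtype.ext (mul_left_cancel h))
      · intro y
        refine ⟨(y, ⟨(y : Y ⧸ K).out⁻¹ * y, ?_⟩), by simp⟩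
        rw [← QuotientGroup.eq]
        simp
    rw [← hb.prod_comp, Fintype.prod_prod_type]
    apply Finset.prod_eq_one
    intro c _
    simp only [map_mul]
    by_cases hc : π c.out = y
    · simpa [hc, hK] using h c.out
    · simp [hc, hK]
  · simp [pushRight, hw]

end wr

variable {A B F : GroupClass}

lemma ncyc (hB : IsFormation B) {q : ℕ} [Fact q.Prime] {H : Type} [Group H] [Finite H] (hH : B H)
    (hc : IsCyclic (residual B ((Cy q × Cy q) ≀ᵣ H))) : B ((Cy q × Cy q) ≀ᵣ H) := by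
  rw [hB.iff_residual_eq_bot, eq_bot_iff]
  obtain ⟨m, hm⟩ := hc.exists_generator
  have hD := residual_wreath_right (T := Cy q × Cy q) hB hH
  have key : ∀ α : Cy q × Cy q →* Cy q × Cy q, Surjective α → ∀ x,
      ∃ k : ℤ, α (m.1.left x) = m.1.left x ^ k := by
    intro α hα x
    have h1 : mapLeft α m.1 ∈ residual B ((Cy q × Cy q) ≀ᵣ H) :=
      (resMap hB _ (mapLeft_surjective hα) m).2
    obtain ⟨k, hk⟩ := hm ⟨_, h1⟩
    refine ⟨k, ?_⟩
    have h2 := congrArg (coord _ hD x) hk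
    rw [map_zpow] at h2
    exact h2.symm
  have hprime : ∀ a b : Cy q, ∀ k : ℤ, a = a ^ k → b * a = b ^ k → a = 1 := by
    intro a b k h1 h2
    by_contra ha
    obtain ⟨j, rfl⟩ := mem_zpowers_of_prime_card (p := q) (card_Cy q) (g := a) (g' := b) ha
    change a ^ j * a = (a ^ j) ^ k at h2
    rw [← zpow_mul, mul_comm j k, zpow_mul, ← h1] at h2
    exact ha (by simpa using h2)
  have hm1 : m = 1 := by
    apply Subtype.ext
    ext : 1
    · funext x
      obtain ⟨k, hk⟩ := key ((MonoidHom.fst _ _).prod (MonoidHom.snd _ _ * MonoidHom.fst _ _))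
        (fun v => ⟨(v.1, v.2 * v.1⁻¹), by simp⟩) x
      obtain ⟨l, hl⟩ := key (MonoidHom.prod (MonoidHom.fst _ _ * MonoidHom.snd _ _)
        (MonoidHom.snd _ _))
        (fun v => ⟨(v.1 * v.2⁻¹, v.2), by simp⟩) x
      exact Prod.ext (hprime _ _ k (congrArg Prod.fst hk) (congrArg Prod.snd hk))
        (hprime _ _ l (congrArg Prod.snd hl) (congrArg Prod.fst hl))
    · exact hD m.1 m.2
  intro r hr
  obtain ⟨k, hk⟩ := hm ⟨r, hr⟩
  have := congrArg Subtype.val hk
  simpa [hm1] using this.symm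

end Pool.Agent.P.MP_58728c_al
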