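import Pool.Agent.P.MP_58728c_al.Uniq2

namespace Pool.Agent.P.MP_58728c_al

open Function RegularWreathProduct

variable {A B C D F : GroupClass} {e : ℕ}

/-- not closed under `H ↦ C_q ≀ H` for any prime `q` -/
def NC (F : GroupClass) : Prop := ∀ (q : ℕ) [Fact q.Prime], ¬ Closed F q

lemma isPGroup_Cy (q : ℕ) [Fact q.Prime] : IsPGroup q (Cy q) :=
  IsPGroup.of_card (n := 1) (by rw [card_Cy, pow_one])

lemma isPGroup_base {T H : Type} [Group T] [Finite T] [Group H] [Finite H] {q : ℕ} [Fact q.Prime]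
    (hT : IsPGroup q T) : IsPGroup q (rightHom : T ≀ᵣ H →* H).ker := by
  obtain ⟨n, hn⟩ := IsPGroup.iff_card.mp hT
  rintro ⟨w, hw⟩
  refine ⟨n, Subtype.ext ?_⟩
  change w ^ q ^ n = 1
  ext x
  · rw [(pow_left_of_right_eq_one hw _ x).1, ← hn, pow_card_eq_one']; rfl
  · exact (pow_left_of_right_eq_one hw _ 1).2

lemma mem_of_closed_aux (hB : IsFormation B) {q : ℕ} [Fact q.Prime] {G : Type} [Group G] [Finite G]
    (hp : IsPGroup q (residual B G)) (h : B (Cy q ≀ᵣ (G ⧸ residual B G))) : B G := by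
  rw [hB.iff_residual_eq_bot]
  by_contra hne
  have := (Subgroup.nontrivial_iff_ne_bot _).mpr hne
  obtain ⟨φ, hφ⟩ := exists_surj_Cy hp
  obtain ⟨y, hy⟩ := exists_ne (1 : Cy q)
  obtain ⟨x, rfl⟩ := hφ y
  exact hy (hom_trivial hB _ le_rfl h φ x)

lemma closed_iff (hB : IsFormation B) {q : ℕ} [Fact q.Prime] :
    Closed B q ↔ formProd (PG q) B = B := by
  constructor
  · intro hc
    funext G _ _
    refine propext ⟨fun h => mem_of_closed_aux hB h (hc _ (hB.quot_residual G)), fun h => ?_⟩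
    change IsPGroup q (residual B G)
    rw [hB.iff_residual_eq_bot.mp h]
    exact IsPGroup.of_bot
  · intro h H _ _ hH
    rw [← h]
    exact (isPGroup_base (isPGroup_Cy q)).to_le (residual_wreath_right hB hH)

lemma utest0 (he : 0 < e) (hB : IsFormation B) (hX : Sub B (X e)) (hn : NC B) :
    ∃ (H₀ : Type) (_ : Group H₀) (_ : Finite H₀), B H₀ ∧
      ∀ (H₁ : Type) [Group H₁] [Finite H₁], B H₁ →
        ∀ (T : Type) [Group T] [Finite T] [Nontrivial T], ¬ B (T ≀ᵣ (H₀ × H₁)) := by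
  rcases bounded_or B e with hb | ⟨H₂, _, _, h2, q, hq, h, h3, h4⟩
  · obtain ⟨Hb, _, _, hb0, hb'⟩ := exists_max_gcd hB he
    refine ⟨Hb, inferInstance, inferInstance, hb0, ?_⟩
    intro H₁ _ _ h1 T _ _ _ hW
    obtain ⟨p, hp, hpT⟩ := Nat.exists_prime_and_dvd (Finite.one_lt_card (α := T)).ne'
    have := Fact.mk hp
    obtain ⟨t, ht⟩ := exists_prime_orderOf_dvd_card' p hpT
    obtain ⟨h, hh⟩ := hp.exists_orderOf_eq_pow_factorization_exponent (Hb × H₁)
    have d1 : Monoid.exponent Hb ∣ Monoid.exponent (Hb × H₁) :=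
      MonoidHom.exponent_dvd (f := MonoidHom.fst Hb H₁) Prod.fst_surjective
    have d2 : Monoid.exponent (Hb × H₁) ∣ Monoid.exponent (T ≀ᵣ (Hb × H₁)) :=
      MonoidHom.exponent_dvd (f := rightHom) rightHom_surjective
    have d3 := order_dvd_of_elt_pow t h (Monoid.pow_exponent_eq_one _)
    rw [hh, ht, ← pow_succ] at d3
    have d4 := hb' _ hW
    rw [Nat.gcd_eq_left (Monoid.exponent_dvd_of_forall_pow_eq_one (hb _ hW)),
      Nat.gcd_eq_left (Monoid.exponent_dvd_of_forall_pow_eq_one (hb _ hb0))] at d4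
    have d5 := Nat.le_antisymm d4
      (Nat.le_of_dvd (Nat.pos_of_ne_zero Monoid.exponent_ne_zero_of_finite) (d1.trans d2))
    rw [d5] at d3
    exact Nat.pow_succ_factorization_not_dvd Monoid.exponent_ne_zero_of_finite hp (d3.trans d1)
  · have := Fact.mk hq
    have hc := hn q
    unfold Closed at hc
    push Not at hc
    obtain ⟨Ha, _, _, ha, ha'⟩ := hc
    refine ⟨H₂ × Ha, inferInstance, inferInstance, hB.prod h2 ha, ?_⟩
    intro H₁ _ _ h1 T _ _ _ hW
    obtain ⟨k, hk⟩ := h3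
    have hT : IsPGroup q T := isPGroup_of_X_wreath (h := (((h, 1), 1) : (H₂ × Ha) × H₁))
      (hX _ hW) hq ⟨k, by simp [hk]⟩ (by simpa using h4)
    obtain ⟨φ, hφ⟩ := exists_surj_Cy hT
    exact ha' (hB.surj (pushRight ((MonoidHom.snd H₂ Ha).comp (MonoidHom.fst _ H₁)))
      (pushRight_surjective (Prod.snd_surjective.comp Prod.fst_surjective))
      (hB.surj (mapLeft φ) (mapLeft_surjective hφ) hW))

/-- a factorisation with nontrivial left factor -/
structure Fac (e : ℕ) (F A B : GroupClass) : Prop where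
  he : 0 < e
  hA : IsFormation A
  hB : IsFormation B
  nt : ∃ (T : Type) (_ : Group T) (_ : Finite T), A T ∧ Nontrivial T
  eq : F = formProd A B
  hX : Sub F (X e)
  nc : NC F

lemma Fac.hF (d : Fac e F A B) : IsFormation F := d.eq ▸ d.hA.formProd d.hB

lemma Fac.iff (d : Fac e F A B) {G : Type} [Group G] [Finite G] : F G ↔ A (residual B G) := by
  rw [d.eq]; rfl

lemma Fac.right_le (d : Fac e F A B) {G : Type} [Group G] [Finite G] (h : B G) : F G := by
  rw [d.iff, d.hB.iff_residual_eq_bot.mp h]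
  exact d.hA.triv _

lemma Fac.hXB (d : Fac e F A B) : Sub B (X e) := fun G _ _ h => d.hX G (d.right_le h)

lemma Fac.neB (d : Fac e F A B) : B ≠ F := by
  rintro rfl
  obtain ⟨H₀, _, _, h0, h1⟩ := utest0 d.he d.hB d.hX d.nc
  obtain ⟨T, _, _, hT, _⟩ := d.nt
  exact h1 H₀ h0 T (d.iff.mpr ((wreath_test d.hA d.hB (d.hB.prod h0 h0)
    (fun T' _ _ _ _ _ => h1 H₀ h0 T')).mp hT))

lemma Fac.ncB (d : Fac e F A B) : NC B := by
  intro p hp hc
  apply d.neB
  funext G _ _
  refine propext ⟨d.right_le, fun hG => ?_⟩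
  have hT : ∀ (q : ℕ) [Fact q.Prime], Closed B q → ∀ (φ : residual B G →* Cy q) t, φ t = 1 :=
    fun q _ hq φ t => hom_trivial d.hB _ le_rfl (hq _ (d.hB.quot_residual G)) φ t
  obtain ⟨H₀, _, _, h0, h1⟩ := exists_test d.he d.hB d.hXB _ hT
  obtain ⟨H₁, _, _, h2, h3, h, hh⟩ := hc.unbounded d.hB e d.he
  have hW : F (residual B G ≀ᵣ (H₀ × H₁)) :=
    d.iff.mpr ((wreath_test d.hA d.hB (d.hB.prod h0 h2) (h1 H₁ h2)).mp (d.iff.mp hG))
  obtain ⟨k, hk⟩ := h3 h
  have hp' : IsPGroup p (residual B G) :=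
    isPGroup_of_X_wreath (h := ((1, h) : H₀ × H₁)) (d.hX _ hW) hp.out ⟨k, by simp [hk]⟩
      (by simpa using hh)
  exact mem_of_closed_aux d.hB hp' (hc _ (d.hB.quot_residual G))

lemma Fac.utest (d : Fac e F A B) : ∃ (H₀ : Type) (_ : Group H₀) (_ : Finite H₀), B H₀ ∧
    ∀ (H₁ : Type) [Group H₁] [Finite H₁], B H₁ →
      ∀ (T : Type) [Group T] [Finite T], A T ↔ F (T ≀ᵣ (H₀ × H₁)) := by
  obtain ⟨H₀, _, _, h0, h1⟩ := utest0 d.he d.hB d.hXB d.ncB
  refine ⟨H₀, inferInstance, inferInstance, h0, fun H₁ _ _ h2 T _ _ => ?_⟩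
  rw [d.iff]
  exact wreath_test d.hA d.hB (d.hB.prod h0 h2) (fun T' _ _ _ _ _ => h1 H₁ h2 T')

lemma Fac.hXA (d : Fac e F A B) : Sub A (X e) := by
  intro T _ _ hT
  obtain ⟨H₀, _, _, h0, h1⟩ := d.utest
  exact (Sec.of_inj diag diag_injective).X (d.hX _ ((h1 H₀ h0 T).mp hT))

/-- `G` is a section of a member of `A` -/
def SecOf (A : GroupClass) (G : Type) [Group G] : Prop :=
  ∃ (R : Type) (_ : Group R) (_ : Finite R), A R ∧ Sec G R

lemma SecOf.mono {G G' : Type} [Group G] [Group G'] (h : SecOf A G) (h' : Sec G' G) :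
    SecOf A G' := by
  obtain ⟨R, _, _, h1, h2⟩ := h
  exact ⟨R, inferInstance, inferInstance, h1, h'.trans h2⟩

lemma SecOf.trans {G : Type} [Group G] (h : SecOf A G)
    (h' : ∀ (R : Type) [Group R] [Finite R], A R → SecOf C R) : SecOf C G := by
  obtain ⟨R, _, _, h1, h2⟩ := h
  exact (h' R h1).mono h2

lemma sub_PG_of_wreath {p : ℕ} [hp : Fact p.Prime]
    (h : ∀ (T : Type) [Group T] [Finite T], A T → SecOf A (T ≀ᵣ Cy p)) :
    ∀ n : ℕ, 0 < n → Sub A (X n) → Sub A (PG p) := by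
  obtain ⟨t, ht⟩ := exists_prime_orderOf_dvd_card' (G := Cy p) p (by rw [card_Cy])
  intro n
  induction n using Nat.strong_induction_on with
  | _ n ih =>
    intro hn hX
    have key : ∀ (T : Type) [Group T] [Finite T], A T → X n (T ≀ᵣ Cy p) := by
      intro T _ _ hT
      obtain ⟨R, _, _, h1, h2⟩ := h T hT
      exact h2.X (hX R h1)
    by_cases hpn : p ∣ n
    · exact ih (n / p) (Nat.div_lt_self hn hp.out.one_lt)
        (Nat.div_pos (Nat.le_of_dvd hn hpn) hp.out.pos)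
        fun T _ _ hT => X_div_of_X_wreath (key T hT) hp.out ht hpn
    · intro T _ _ hT
      refine isPGroup_of_X_wreath (h := t) (key T hT) hp.out (isPGroup_Cy p t) ?_
      rwa [ne_eq, ← orderOf_dvd_iff_pow_eq_one, ht]

lemma secOf_pgroup {p : ℕ} [hp : Fact p.Prime] (hA : IsFormation A)
    (h : ∀ (T : Type) [Group T] [Finite T], A T → SecOf A (T ≀ᵣ Cy p))
    (P : Type) [Group P] [Finite P] (hP : IsPGroup p P) : SecOf A P := by
  have key : ∀ n, SecOf A (IteratedWreathProduct (Cy p) n) := by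
    intro n
    induction n with
    | zero => exact ⟨PUnit, inferInstance, inferInstance, hA.triv _, Sec.refl⟩
    | succ n ih =>
      obtain ⟨R, _, _, h1, h2⟩ := ih
      exact (h R h1).mono (h2.wreath (Cy p))
  obtain ⟨n, hn⟩ := IsPGroup.iff_card.mp hP
  let i : P →* Equiv.Perm P := MulAction.toPermHom P P
  have hi : Injective i := MulAction.toPerm_injective
  have h1 : IsPGroup p i.range := hP.of_surjective i.rangeRestrict i.rangeRestrict_surjective
  obtain ⟨Q, hQ⟩ := h1.exists_le_sylow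
  let g := Sylow.mulEquivIteratedWreathProduct p n P hn (Cy p) (card_Cy p) Q
  refine (key n).mono (Sec.of_inj
    (g.toMonoidHom.comp ((Subgroup.inclusion hQ).comp i.rangeRestrict)) ?_)
  exact g.injective.comp ((Subgroup.inclusion_injective hQ).comp
    (fun a b e => hi (congrArg Subtype.val e)))

lemma Fac.not_wreath (d : Fac e F A B) {p : ℕ} [hp : Fact p.Prime]
    (h : ∀ (T : Type) [Group T] [Finite T], A T → SecOf A (T ≀ᵣ Cy p)) : False := by
  have h1 := sub_PG_of_wreath h e d.he d.hXA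
  apply d.nc p
  intro H _ _ hH
  have h2 : IsPGroup p (residual B (Cy p ≀ᵣ H)) := by
    refine ((h1 _ (d.iff.mp hH)).comap_of_ker_isPGroup rightHom
      (isPGroup_base (isPGroup_Cy p))).to_le ?_
    rw [← d.hB.map_residual _ (rightHom_surjective (T := Cy p) (H := H))]
    exact Subgroup.le_comap_map _ _
  obtain ⟨R, _, _, h3, h4⟩ := secOf_pgroup d.hA h _ h2
  exact d.iff.mpr (h4.mem_of_isPGroup d.hA h3 (h1 R h3))

end Pool.Agent.P.MP_58728c_al
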