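import Pool.Agent.P.MP_58728c_al.Uniq3

namespace Pool.Agent.P.MP_58728c_al

open Function RegularWreathProduct

variable {A B C D F : GroupClass} {e : ℕ}

lemma card_dvd_residual (hD : IsFormation D) {G H : Type} [Group G] [Finite G] [Group H] [Finite H]
    (f : G →* H) (hf : Surjective f) : Nat.card (residual D H) ∣ Nat.card (residual D G) :=
  Subgroup.card_dvd_of_surjective _ (resMap_surjective hD f hf)

lemma exists_lift_residual (hD : IsFormation D) {T Y : Type} [Group T] [Finite T] [Group Y]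
    [Finite Y] : ∀ z ∈ residual D Y, ∃ r ∈ residual D (T ≀ᵣ Y), r.right = z := by
  intro z hz
  rw [← hD.map_residual _ (rightHom_surjective (T := T) (H := Y))] at hz
  exact hz

lemma Fac.sec_le (d : Fac e F A B) (d' : Fac e F C D) {H : Type} [Group H] [Finite H] (hH : B H)
    (hn : ¬ D H) (T : Type) [Group T] [Finite T] (hT : A T) : SecOf C T := by
  obtain ⟨H₀, _, _, h0, h1⟩ := d.utest
  have h2 : residual D (H₀ × H) ≠ ⊥ := fun h =>
    hn (d'.hB.surj (MonoidHom.snd H₀ H) Prod.snd_surjective (d'.hB.iff_residual_eq_bot.mpr h))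
  obtain ⟨⟨z, hz⟩, hz1⟩ := Subgroup.ne_bot_iff_exists_ne_one.mp h2
  obtain ⟨r, hr, rfl⟩ := exists_lift_residual (T := T) d'.hB z hz
  exact ⟨_, inferInstance, inferInstance, d'.iff.mp ((h1 H hH T).mp hT),
    sec1 _ hr fun h => hz1 (Subtype.ext h)⟩

lemma Cy_wreath_of_orbit (hD : IsFormation D) {T Y H : Type} [Group T] [Finite T] [Group Y]
    [Finite Y] [Group H] [Finite H] [Fintype (residual D Y)] (hc : IsCyclic (residual D Y))
    {q : ℕ} [Fact q.Prime] (ψ : T →* Cy q) (hψ : Surjective ψ)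
    (h : ∀ r ∈ residual D (T ≀ᵣ Y), r.right = 1 →
      ∀ y : Y, ∏ x : residual D Y, ψ (r.left (y * x)) = 1)
    (π : Y →* H) (hπ : Surjective π) (hH : D H) : D (Cy q ≀ᵣ H) := by
  have h1 : ∀ α : Cy q × Cy q →* Cy q, Surjective α → ∀ r ∈ residual D ((Cy q × Cy q) ≀ᵣ Y),
      r.right = 1 → ∀ y : Y, ∏ x : residual D Y, α (r.left (y * x)) = 1 := by
    intro α hα r hr r1 y
    obtain ⟨s, hs⟩ := resMap_surjective hD _ (mapLeft_surjective (H := Y) hψ)
      (resMap hD _ (mapLeft_surjective hα) ⟨r, hr⟩)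
    have hs' : mapLeft ψ s.1 = mapLeft α r := congrArg Subtype.val hs
    have h2 := h s.1 s.2 ((congrArg RegularWreathProduct.right hs').trans r1) y
    rw [← h2]
    exact Finset.prod_congr rfl fun x _ =>
      (congrArg (fun w : Cy q ≀ᵣ Y => w.left (y * x)) hs').symm
  have h2 : ∀ r ∈ residual D ((Cy q × Cy q) ≀ᵣ Y), r.right = 1 → pushRight π r = 1 := by
    intro r hr r1
    refine pushRight_eq_one π (residual D Y) (fun z hz => hD.residual_le_ker π hπ hH hz) r r1 ?_
    intro y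
    apply Prod.ext
    · rw [Prod.fst_prod]
      exact h1 (MonoidHom.fst _ _) Prod.fst_surjective r hr r1 y
    · rw [Prod.snd_prod]
      exact h1 (MonoidHom.snd _ _) Prod.snd_surjective r hr r1 y
  let f := resMap hD _ (rightHom_surjective (T := Cy q × Cy q) (H := Y))
  let g := resMap hD _ (pushRight_surjective (C := Cy q × Cy q) hπ)
  have hf : Surjective f := resMap_surjective _ _ _
  have hg : Surjective g := resMap_surjective _ _ _
  have hker : f.ker ≤ g.ker := fun r hr =>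
    Subtype.ext (h2 r.1 r.2 (congrArg Subtype.val hr))
  have h3 : IsCyclic (residual D ((Cy q × Cy q) ≀ᵣ H)) := by
    refine isCyclic_of_surjective (f.liftOfSurjective hf ⟨g, hker⟩) ?_
    intro y
    obtain ⟨x, rfl⟩ := hg y
    exact ⟨f x, by simp⟩
  exact hD.surj (mapLeft (MonoidHom.fst _ _)) (mapLeft_surjective Prod.fst_surjective)
    (ncyc hD hH h3)

lemma Fac.step (d : Fac e F A B) (d' : Fac e F C D) {T Y : Type} [Group T] [Finite T] [Group Y]
    [Finite Y] (hT : A T) (hY : B Y) {p : ℕ} [hp : Fact p.Prime]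
    (hpY : p ∣ Nat.card (residual D Y)) (hno : ¬ SecOf C (T ≀ᵣ Cy p)) :
    IsCyclic (residual D Y) ∧ ∀ (H : Type) [Group H] [Finite H], D H → ∀ π : Y →* H,
      Surjective π → ∃ q ∈ (Nat.card T).primeFactors, ∀ [Fact q.Prime], D (Cy q ≀ᵣ H) := by
  obtain ⟨H₀, _, _, h0, h1⟩ := d.utest
  have hR := d'.iff.mp ((h1 Y hY T).mp hT)
  obtain ⟨z, hz⟩ := exists_prime_orderOf_dvd_card' p
    (hpY.trans (card_dvd_residual d'.hB (MonoidHom.snd H₀ Y) Prod.snd_surjective))
  have hcard : Nat.card (Subgroup.zpowers (z : H₀ × Y)) = p := by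
    rw [Nat.card_zpowers, Subgroup.orderOf_coe, hz]
  have hno' : ∀ K : Subgroup (H₀ × Y), Nat.card K = p →
      ¬ Sec (T ≀ᵣ K) (residual D (T ≀ᵣ (H₀ × Y))) := by
    intro K hK hs
    let g : T ≀ᵣ Cy p ≃* T ≀ᵣ K :=
      RegularWreathProduct.congr (MulEquiv.refl T) (mulEquivOfPrimeCardEq (card_Cy p) hK)
    exact hno ⟨_, inferInstance, inferInstance, hR,
      (Sec.of_inj g.toMonoidHom g.injective).trans hs⟩
  have hlift := exists_lift_residual (T := T) (Y := H₀ × Y) d'.hB
  have hle : Subgroup.zpowers (z : H₀ × Y) ≤ residual D (H₀ × Y) := by simp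
  have heq : residual D (H₀ × Y) = Subgroup.zpowers (z : H₀ × Y) := by
    refine le_antisymm (fun y hy => ?_) hle
    by_contra hc
    obtain ⟨r, hr, rfl⟩ := hlift y hy
    exact hno' _ hcard (sec2 _ _ (fun w hw => hlift w (hle hw)) hr hc)
  rw [← heq] at hcard
  have hcyc : IsCyclic (residual D (H₀ × Y)) := isCyclic_of_prime_card hcard
  refine ⟨isCyclic_of_surjective _
    (resMap_surjective d'.hB (MonoidHom.snd H₀ Y) Prod.snd_surjective), ?_⟩
  intro H _ _ hH π hπ
  have := Fintype.ofFinite (residual D (H₀ × Y))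
  rcases sec3 (residual D (T ≀ᵣ (H₀ × Y))) (residual D (H₀ × Y)) hlift (by
    intro h
    rw [h, Subgroup.card_bot] at hcard
    exact hp.out.one_lt.ne hcard) with h | ⟨q, hq, hqT, ψ, hψ, h⟩
  · exact absurd h (hno' _ hcard)
  · refine ⟨q, Nat.mem_primeFactors.mpr ⟨hq, hqT, Nat.card_pos.ne'⟩, ?_⟩
    intro _
    exact Cy_wreath_of_orbit d'.hB hcyc ψ hψ h (π.comp (MonoidHom.snd H₀ Y))
      (hπ.comp Prod.snd_surjective) hH

lemma IsFormation.inter (hB : IsFormation B) (hD : IsFormation D) :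
    IsFormation (fun G _ _ => B G ∧ D G) := by
  apply isFormation_of_hom
  · exact ⟨hB.triv _, hD.triv _⟩
  · exact fun G H _ _ _ _ f hf h => ⟨hB.surj f hf h.1, hD.surj f hf h.2⟩
  · exact fun G H₁ H₂ _ _ _ _ _ _ f₁ f₂ a b h₁ h₂ hs =>
      ⟨hB.subdirect₂ f₁ f₂ a b h₁.1 h₂.1 hs, hD.subdirect₂ f₁ f₂ a b h₁.2 h₂.2 hs⟩

lemma exists_avoid₂ (hB : IsFormation B) (hD : IsFormation D) (s : Finset ℕ) :
    ∃ (H₀ : Type) (_ : Group H₀) (_ : Finite H₀), B H₀ ∧ ∀ p ∈ s, ∀ [Fact p.Prime],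
      D (Cy p ≀ᵣ H₀) → ∀ (H : Type) [Group H] [Finite H], B H → D (Cy p ≀ᵣ H) := by
  classical
  induction s using Finset.induction_on with
  | empty => exact ⟨PUnit, inferInstance, inferInstance, hB.triv _, by simp⟩
  | insert p s _ ih =>
    obtain ⟨H₀, _, _, h0, h1⟩ := ih
    by_cases hc : ∀ [Fact p.Prime] (H : Type) [Group H] [Finite H], B H → D (Cy p ≀ᵣ H)
    · refine ⟨H₀, inferInstance, inferInstance, h0, fun q hq _ h => ?_⟩
      rcases Finset.mem_insert.mp hq with rfl | hq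
      · exact hc
      · exact h1 q hq h
    · push Not at hc
      obtain ⟨_, H₁, _, _, h2, h3⟩ := hc
      refine ⟨H₀ × H₁, inferInstance, inferInstance, hB.prod h0 h2, fun q hq _ h => ?_⟩
      rcases Finset.mem_insert.mp hq with rfl | hq
      · exact absurd (hD.surj (pushRight (MonoidHom.snd H₀ H₁))
          (pushRight_surjective Prod.snd_surjective) h) h3
      · exact h1 q hq (hD.surj (pushRight (MonoidHom.fst H₀ H₁))
          (pushRight_surjective Prod.fst_surjective) h)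

lemma Fac.le_of_sec (d : Fac e F A B) (d' : Fac e F C D)
    (hs : ∀ (R : Type) [Group R] [Finite R], C R → SecOf A R) : Sub B D := by
  intro H _ _ hH
  by_contra hn
  have hs' := d.sec_le d' hH hn
  have hnt : Nontrivial (residual D H) := (Subgroup.nontrivial_iff_ne_bot _).mpr
    fun h => hn (d'.hB.iff_residual_eq_bot.mpr h)
  obtain ⟨p, hp, hpH⟩ := Nat.exists_prime_and_dvd (Finite.one_lt_card (α := residual D H)).ne'
  have := Fact.mk hp
  refine d.not_wreath (p := p) fun T _ _ hT => ?_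
  by_contra hT'
  have hno : ¬ SecOf C (T ≀ᵣ Cy p) := fun h => hT' (h.trans hs)
  have hI := d.hB.inter d'.hB
  obtain ⟨H₀, _, _, h0, h1⟩ := exists_avoid₂ hI d'.hB (Nat.card T).primeFactors
  obtain ⟨q, hq, h2⟩ := (d.step d' hT (d.hB.prod hH h0.1)
    (hpH.trans (card_dvd_residual d'.hB (MonoidHom.fst H H₀) Prod.fst_surjective)) hno).2
    H₀ h0.2 (MonoidHom.snd H H₀) Prod.snd_surjective
  have hqp := Fact.mk (Nat.prime_of_mem_primeFactors hq)
  have h3 := h1 q hq h2
  by_cases h4 : ∀ (K : Type) [Group K] [Finite K], B K ∧ D K → B (Cy q ≀ᵣ K)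
  · have hc : Closed (fun G _ _ => B G ∧ D G) q := fun K _ _ hK => ⟨h4 K hK, h3 K hK⟩
    obtain ⟨K, _, _, hK, k1, k, k2⟩ := hc.unbounded hI e d.he
    obtain ⟨K₀, _, _, -, h5⟩ := d'.utest
    obtain ⟨j, hj⟩ := k1 k
    have h6 : IsPGroup q (residual D H) :=
      isPGroup_of_X_wreath (h := ((1, k) : K₀ × K))
        (d.hX _ ((h5 K hK.2 _).mp (d'.iff.mp (d.right_le hH)))) hqp.out ⟨j, by simp [hj]⟩
        (by simpa using k2)
    exact hn (mem_of_closed_aux d'.hB h6 (h3 _ ⟨d.hB.2.2.1 H _ hH, d'.hB.quot_residual H⟩))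
  · push Not at h4
    obtain ⟨K, _, _, hK, h5⟩ := h4
    have h6 : D ((Cy q × Cy q) ≀ᵣ K) := by
      refine d'.hB.subdirect₂ (mapLeft (MonoidHom.fst _ _)) (mapLeft (MonoidHom.snd _ _))
        (mapLeft_surjective Prod.fst_surjective) (mapLeft_surjective Prod.snd_surjective)
        (h3 K hK) (h3 K hK) ?_
      intro g a b
      ext : 1
      · funext x
        exact Prod.ext (congrArg (fun w : Cy q ≀ᵣ K => w.left x) a)
          (congrArg (fun w : Cy q ≀ᵣ K => w.left x) b)
      · exact congrArg (fun w : Cy q ≀ᵣ K => w.right) a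
    have h7 : ¬ IsCyclic (residual B ((Cy q × Cy q) ≀ᵣ K)) := fun h =>
      h5 (d.hB.surj (mapLeft (MonoidHom.fst _ _)) (mapLeft_surjective Prod.fst_surjective)
        (ncyc d.hB hK.1 h))
    have h8 : Nontrivial (residual B ((Cy q × Cy q) ≀ᵣ K)) := by
      by_contra h
      have := not_nontrivial_iff_subsingleton.mp h
      exact h7 inferInstance
    obtain ⟨r, hr, hrK⟩ := Nat.exists_prime_and_dvd
      (Finite.one_lt_card (α := residual B ((Cy q × Cy q) ≀ᵣ K))).ne'
    have := Fact.mk hr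
    refine d'.not_wreath (p := r) fun U _ _ hU => ?_
    by_contra hU'
    exact h7 (d'.step d hU h6 hrK fun h => hU' (h.trans hs')).1

lemma Fac.comparable (d : Fac e F A B) (d' : Fac e F C D) : Sub B D ∨ Sub D B := by
  by_cases h : Sub D B
  · exact Or.inr h
  · unfold Sub at h
    push Not at h
    obtain ⟨H, _, _, h1, h2⟩ := h
    exact Or.inl (d.le_of_sec d' (d'.sec_le d h1 h2))

lemma Fac.cancel (d : Fac e F A B) (d' : Fac e F A D) : B = D := by
  have h : ∀ (R : Type) [Group R] [Finite R], A R → SecOf A R :=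
    fun R _ _ hR => ⟨R, inferInstance, inferInstance, hR, Sec.refl⟩
  funext G _ _
  exact propext ⟨d.le_of_sec d' h G, d'.le_of_sec d h G⟩

end Pool.Agent.P.MP_58728c_al
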