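import Pool.Agent.P.MP_58728c_al.Uniq4

namespace Pool.Agent.P.MP_58728c_al

open Function RegularWreathProduct

variable {A B C D F : GroupClass} {e : ℕ}

/-- the groups `U` with `U ≀ Y ∈ D` -/
def Bot (D : GroupClass) (Y : Type) [Group Y] [Finite Y] : GroupClass := fun U _ _ => D (U ≀ᵣ Y)

lemma isFormation_Bot (hD : IsFormation D) {Y : Type} [Group Y] [Finite Y] (hY : D Y) :
    IsFormation (Bot D Y) := by
  apply isFormation_of_hom
  · exact hD.surj inl (fun w => ⟨w.right, by ext; simp⟩) hY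
  · exact fun G H _ _ _ _ f hf h => hD.surj (mapLeft f) (mapLeft_surjective hf) h
  · intro G H₁ H₂ _ _ _ _ _ _ f₁ f₂ a b h₁ h₂ hs
    refine hD.subdirect₂ (mapLeft f₁) (mapLeft f₂) (mapLeft_surjective a) (mapLeft_surjective b)
      h₁ h₂ fun g u v => ?_
    ext x
    · exact hs _ (congrArg (fun w : H₁ ≀ᵣ Y => w.left x) u)
        (congrArg (fun w : H₂ ≀ᵣ Y => w.left x) v)
    · exact congrArg (fun w : H₁ ≀ᵣ Y => w.right) u

lemma residual_Bot (hC : IsFormation C) (hD : IsFormation D) {T Y : Type} [Group T] [Finite T]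
    [Group Y] [Finite Y] (hY : D Y) : C (residual D (T ≀ᵣ Y)) ↔ C (residual (Bot D Y) T) := by
  have hE := isFormation_Bot hD hY
  have hR := residual_wreath_right (T := T) hD hY
  have hN := residual_normal D (T ≀ᵣ Y)
  have shift : ∀ d ∈ residual D (T ≀ᵣ Y), ∀ x y : Y,
      ∃ d' ∈ residual D (T ≀ᵣ Y), d'.left y = d.left x := by
    intro d hd x y
    refine ⟨_, hN.conj_mem d hd (inl (y * x⁻¹)), ?_⟩
    simp [hR d hd]
  have h1 : ∀ d ∈ residual D (T ≀ᵣ Y), ∀ x, d.left x ∈ residual (Bot D Y) T := by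
    intro d hd x
    have := hD.residual_le_ker (mapLeft (QuotientGroup.mk' (residual (Bot D Y) T)))
      (mapLeft_surjective (QuotientGroup.mk'_surjective _)) (hE.quot_residual T) hd
    exact (QuotientGroup.eq_one_iff _).mp
      (congrArg (fun w : (T ⧸ residual (Bot D Y) T) ≀ᵣ Y => w.left x) this)
  have hT1 : (coord _ hR 1).range.Normal := by
    constructor
    rintro _ ⟨d, rfl⟩ t
    refine ⟨⟨_, hN.conj_mem d.1 d.2 (diag t)⟩, ?_⟩
    simp [coord, diag]
  have h2 : residual (Bot D Y) T ≤ (coord _ hR 1).range := by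
    refine sInf_le ⟨hT1, ?_⟩
    refine hD.of_residual_le_ker (mapLeft (QuotientGroup.mk' _))
      (mapLeft_surjective (QuotientGroup.mk'_surjective _)) ?_
    intro d hd
    rw [MonoidHom.mem_ker]
    ext x
    · obtain ⟨d', hd', e⟩ := shift d hd x 1
      exact (QuotientGroup.eq_one_iff _).mpr ⟨⟨d', hd'⟩, e⟩
    · exact hR d hd
  let c : Y → residual D (T ≀ᵣ Y) →* residual (Bot D Y) T := fun x =>
    (coord _ hR x).codRestrict _ fun d => h1 d.1 d.2 x
  have hsurj : ∀ x, Surjective (c x) := by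
    rintro x ⟨t, ht⟩
    obtain ⟨d, hd⟩ := h2 ht
    obtain ⟨d', hd', e⟩ := shift d.1 d.2 1 x
    exact ⟨⟨d', hd'⟩, Subtype.ext (e.trans hd)⟩
  constructor
  · exact hC.surj (c 1) (hsurj 1)
  · intro h
    refine hC.subdirect (H := fun _ : Y => residual (Bot D Y) T) c hsurj (fun _ => h) ?_
    intro g hg
    apply Subtype.ext
    ext x
    · exact congrArg Subtype.val (hg x)
    · exact hR g.1 g.2

lemma Fac.left_eq (d : Fac e F A B) (d' : Fac e F C D) (h : Sub B D) (hA : NonDecomposable A) :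
    A = C := by
  obtain ⟨H₀, _, _, h0, h1⟩ := d.utest
  have hY := h _ (d.hB.prod h0 h0)
  have hE := isFormation_Bot d'.hB hY
  have h2 : A = formProd C (Bot D (H₀ × H₀)) := by
    funext T _ _
    rw [h1 H₀ h0 T, d'.iff, residual_Bot d'.hA d'.hB hY]
    rfl
  by_contra hne
  apply hA
  refine ⟨C, _, d'.hA, hE, Ne.symm hne, fun h3 => ?_, h2⟩
  rw [h3] at h2
  have h4 : F = formProd C F := by
    rw [d.eq, ← formProd_assoc d'.hA d.hA d.hB, ← h2]
  exact (⟨d.he, d'.hA, d.hF, d'.nt, h4, d.hX, d.nc⟩ : Fac e F C F).neB rfl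

/-- the class of trivial groups -/
def Triv : GroupClass := fun G _ _ => Subsingleton G

lemma isFormation_Triv : IsFormation Triv := by
  apply isFormation_of_hom
  · exact (inferInstance : Subsingleton PUnit)
  · exact fun G H _ _ _ _ f hf (h : Subsingleton G) => hf.subsingleton
  · intro G H₁ H₂ _ _ _ _ _ _ f₁ f₂ _ _ (h₁ : Subsingleton H₁) (h₂ : Subsingleton H₂) hs
    exact subsingleton_of_forall_eq 1 fun g =>
      hs g (Subsingleton.elim _ _) (Subsingleton.elim _ _)

lemma formProd_Triv (hA : IsFormation A) : formProd A Triv = A := by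
  funext G _ _
  have htop : residual Triv G = ⊤ := by
    have : Subsingleton (G ⧸ residual Triv G) := isFormation_Triv.quot_residual G
    by_contra hne
    exact not_subsingleton_iff_nontrivial.mpr (QuotientGroup.nontrivial_iff.mpr hne) this
  have e : residual Triv G ≃* G := (MulEquiv.subgroupCongr htop).trans Subgroup.topEquiv
  exact propext ⟨hA.iso e, hA.iso e.symm⟩

lemma Triv_formProd (hA : IsFormation A) : formProd Triv A = A := by
  funext G _ _
  rw [hA.iff_residual_eq_bot]
  change Subsingleton (residual A G) = _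
  rw [← not_nontrivial_iff_subsingleton, Subgroup.nontrivial_iff_ne_bot, not_not]

lemma exists_nontrivial (hA : IsFormation A) (h : A ≠ Triv) :
    ∃ (T : Type) (_ : Group T) (_ : Finite T), A T ∧ Nontrivial T := by
  by_contra hc
  apply h
  funext G _ _
  refine propext ⟨fun hG => ?_, fun (hG : Subsingleton G) => hA.triv G⟩
  by_contra hn
  exact hc ⟨G, inferInstance, inferInstance, hG, not_subsingleton_iff_nontrivial.mp hn⟩

/-- the product of a possibly empty list -/
def prodL (L : List GroupClass) : GroupClass := L.foldr formProd Triv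

lemma isFormation_prodL (L : List GroupClass) (h : ∀ Y ∈ L, IsFormation Y) :
    IsFormation (prodL L) := by
  induction L with
  | nil => exact isFormation_Triv
  | cons Y L ih => exact (h Y (by simp)).formProd (ih fun Z hZ => h Z (by simp [hZ]))

lemma formProdList_eq (L : List GroupClass) : ∀ A, (∀ Y ∈ A :: L, IsFormation Y) →
    formProdList A L = prodL (A :: L) := by
  induction L with
  | nil => exact fun A h => (formProd_Triv (h A (by simp))).symm
  | cons Y L ih =>
    intro A h
    change formProd A (formProdList Y L) = formProd A (prodL (Y :: L))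
    rw [ih Y fun Z hZ => h Z (List.mem_cons_of_mem _ hZ)]

/-- nontrivial non-decomposable formation -/
def Atom (Y : GroupClass) : Prop := IsFormation Y ∧ NonDecomposable Y ∧ Y ≠ Triv

lemma fac_cons (he : 0 < e) {L : List GroupClass} (h : ∀ Y ∈ A :: L, Atom Y)
    (hF : F = prodL (A :: L)) (hX : Sub F (X e)) (hn : NC F) : Fac e F A (prodL L) :=
  ⟨he, (h A (by simp)).1, isFormation_prodL L fun Y hY => (h Y (by simp [hY])).1,
    exists_nontrivial (h A (by simp)).1 (h A (by simp)).2.2, hF, hX, hn⟩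

lemma Fac.ne_Triv (d : Fac e F A B) : F ≠ Triv := by
  rintro rfl
  apply d.neB
  funext G _ _
  exact propext ⟨d.right_le, fun (hG : Subsingleton G) => d.hB.triv G⟩

lemma prodL_unique (he : 0 < e) (L : List GroupClass) : ∀ M : List GroupClass,
    (∀ Y ∈ L, Atom Y) → (∀ Y ∈ M, Atom Y) → prodL L = prodL M → Sub (prodL L) (X e) →
    NC (prodL L) → L = M := by
  induction L with
  | nil =>
    rintro (_ | ⟨C, M⟩) _ hM h hX hn
    · rfl
    · exact absurd rfl (fac_cons he hM h hX hn).ne_Triv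
  | cons A L ih =>
    rintro (_ | ⟨C, M⟩) hL hM h hX hn
    · exact absurd h (fac_cons he hL rfl hX hn).ne_Triv
    · have d := fac_cons he hL rfl hX hn
      have d' := fac_cons he hM h hX hn
      obtain rfl : A = C := by
        rcases d.comparable d' with h1 | h1
        · exact d.left_eq d' h1 (hL A (by simp)).2.1
        · exact (d'.left_eq d h1 (hM C (by simp)).2.1).symm
      rw [ih M (fun Y hY => hL Y (by simp [hY])) (fun Y hY => hM Y (by simp [hY]))
        (d.cancel d') d.hXB d.ncB]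

lemma exists_atoms (L : List GroupClass) (h : ∀ Y ∈ L, IsFormation Y ∧ NonDecomposable Y) :
    ∃ M : List GroupClass, (∀ Y ∈ M, Atom Y) ∧ prodL L = prodL M := by
  induction L with
  | nil => exact ⟨[], by simp, rfl⟩
  | cons A L ih =>
    obtain ⟨M, h1, h2⟩ := ih fun Y hY => h Y (by simp [hY])
    by_cases hA : A = Triv
    · refine ⟨M, h1, ?_⟩
      change formProd A (prodL L) = _
      rw [hA, h2, Triv_formProd (isFormation_prodL M fun Y hY => (h1 Y hY).1)]
    · refine ⟨A :: M, ?_, congrArg (formProd A) h2⟩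
      intro Y hY
      rcases List.mem_cons.mp hY with rfl | hY
      · exact ⟨(h Y (by simp)).1, (h Y (by simp)).2, hA⟩
      · exact h1 Y hY

lemma isFormation_PG (q : ℕ) : IsFormation (PG q) := by
  apply isFormation_of_hom
  · exact IsPGroup.of_subsingleton _ _
  · exact fun G H _ _ _ _ f hf h => IsPGroup.of_surjective h f hf
  · intro G H₁ H₂ _ _ _ _ _ _ f₁ f₂ _ _ h₁ h₂ hs g
    obtain ⟨a, ha⟩ := h₁ (f₁ g)
    obtain ⟨b, hb⟩ := h₂ (f₂ g)
    refine ⟨a + b, hs _ ?_ ?_⟩
    · rw [map_pow, pow_add, pow_mul, ha, one_pow]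
    · rw [map_pow, add_comm, pow_add, pow_mul, hb, one_pow]

lemma atom_PG {q : ℕ} (hq : q.Prime) : Atom (PG q) := by
  have := Fact.mk hq
  refine ⟨isFormation_PG q, ?_, fun h => ?_⟩
  · rintro ⟨A, B, hA, hB, h1, h2, h3⟩
    have d : Dec (PG q) A B := ⟨hA, hB, h1, h2, h3⟩
    apply d.neA
    funext P _ _
    refine propext ⟨d.left_PG hq (fun _ _ _ h => h) P, fun h => ?_⟩
    obtain ⟨H₀, _, _, h0, h4⟩ := d.test one_pos (fun G _ _ hG => X_of_isPGroup hq hG) P
    exact (h4 H₀ h0).mpr (isPGroup_wreath h (d.right_le (d.hB.prod h0 h0)))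
  · have h1 : PG q (Cy q) := isPGroup_Cy q
    rw [h] at h1
    exact not_subsingleton (Cy q) h1

theorem unique_of_X (he : 0 < e) (hF : IsFormation F) (hX : Sub F (X e)) (hnt : F ≠ Triv) :
    (∃! l : GroupClass × List GroupClass, (∀ Y ∈ l.1 :: l.2, Atom Y) ∧ F = formProdList l.1 l.2) ↔
      ∀ q : ℕ, q.Prime → formProd (PG q) F ≠ F := by
  constructor
  · rintro ⟨⟨A, L⟩, ⟨h1, h2⟩, h3⟩ q hq h
    have h4 := h3 (PG q, A :: L) ⟨?_, ?_⟩
    · have := congrArg (fun l : GroupClass × List GroupClass => l.2.length) h4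
      simp at this
    · intro Y hY
      rcases List.mem_cons.mp hY with rfl | hY
      · exact atom_PG hq
      · exact h1 Y hY
    · change F = formProd (PG q) (formProdList A L)
      rw [← h2, h]
  · intro h
    have hn : NC F := fun q hq hc => h q hq.out ((closed_iff hF).mp hc)
    obtain ⟨A, L, h1, h2⟩ := good_of_X e he F hF hX
    rw [formProdList_eq L A fun Y hY => (h1 Y hY).1] at h2
    obtain ⟨M, h3, h4⟩ := exists_atoms _ h1
    rw [h4] at h2
    rcases M with _ | ⟨C, M⟩
    · exact absurd h2 hnt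
    refine ⟨(C, M), ⟨h3, h2.trans (formProdList_eq M C fun Y hY => (h3 Y hY).1).symm⟩, ?_⟩
    rintro ⟨C', M'⟩ ⟨h5, h6⟩
    rw [formProdList_eq M' C' fun Y hY => (h5 Y hY).1] at h6
    have := prodL_unique he _ _ h5 h3 (h6.symm.trans h2) (h6 ▸ hX) (h6 ▸ hn)
    simpa using this

end Pool.Agent.P.MP_58728c_al
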