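import Pool.Agent.P.MP_58728c_al.Basic

namespace Pool.Agent.P.MP_58728c_al

open Function RegularWreathProduct

section wreath

variable {T T' H H' : Type} [Group T] [Group T'] [Group H] [Group H']

/-- the map induced by a homomorphism of the bottom groups -/
def mapLeft (f : T →* T') : T ≀ᵣ H →* T' ≀ᵣ H where
  toFun w := ⟨fun x => f (w.left x), w.right⟩
  map_one' := by ext <;> simp
  map_mul' a b := by ext <;> simp

lemma mapLeft_surjective {f : T →* T'} (hf : Surjective f) :
    Surjective (mapLeft f : T ≀ᵣ H →* T' ≀ᵣ H) := by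
  intro w
  refine ⟨⟨fun x => surjInv hf (w.left x), w.right⟩, ?_⟩
  ext x
  · exact surjInv_eq hf _
  · rfl

lemma rightHom_surjective : Surjective (rightHom : T ≀ᵣ H →* H) := fun h => ⟨inl h, rfl⟩

open Classical in
/-- the map induced by a homomorphism of the top groups, for a commutative bottom group -/
noncomputable def pushRight {C : Type} [CommGroup C] [Finite H] (π : H →* H') :
    C ≀ᵣ H →* C ≀ᵣ H' :=
  have := Fintype.ofFinite H
  { toFun := fun w => ⟨fun y => ∏ x : H, if π x = y then w.left x else 1, π w.right⟩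
    map_one' := by ext <;> simp
    map_mul' := fun a b => by
      ext y
      · simp only [mul_left, Pi.mul_apply]
        rw [← Equiv.prod_comp (Equiv.mulLeft a.right⁻¹)
          (fun x => if π x = (π a.right)⁻¹ * y then b.left x else 1), ← Finset.prod_mul_distrib]
        apply Finset.prod_congr rfl
        intro x _
        simp only [Equiv.coe_mulLeft, map_mul, map_inv, mul_right_inj]
        split_ifs <;> simp
      · simp }

lemma pushRight_surjective {C : Type} [CommGroup C] [Finite H] {π : H →* H'} (hπ : Surjective π) :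
    Surjective (pushRight π : C ≀ᵣ H →* C ≀ᵣ H') := by
  classical
  intro w
  refine ⟨⟨fun x => if surjInv hπ (π x) = x then w.left (π x) else 1, surjInv hπ w.right⟩, ?_⟩
  ext y
  · simp only [pushRight, MonoidHom.coe_mk, OneHom.coe_mk]
    rw [Finset.prod_eq_single (surjInv hπ y)]
    · simp [surjInv_eq hπ]
    · intro x _ hx
      by_cases h : π x = y
      · rw [if_pos h, if_neg]
        rw [h]; exact hx.symm
      · rw [if_neg h]
    · simp
  · exact surjInv_eq hπ _

/-- coordinate of an element of a subgroup of the base group -/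
def coord (D : Subgroup (T ≀ᵣ H)) (hD : ∀ d ∈ D, d.right = 1) (x : H) : D →* T where
  toFun d := d.1.left x
  map_one' := rfl
  map_mul' a b := by simp [hD a.1 a.2]

lemma pow_left_of_right_eq_one {u : T ≀ᵣ H} (hu : u.right = 1) (m : ℕ) (x : H) :
    (u ^ m).left x = u.left x ^ m ∧ (u ^ m).right = 1 := by
  induction m with
  | zero => simp
  | succ m ih => rw [pow_succ, pow_succ]; simp [ih.1, ih.2, hu]

lemma pow_right (u : T ≀ᵣ H) (m : ℕ) : (u ^ m).right = u.right ^ m :=
  map_pow (rightHom : T ≀ᵣ H →* H) u m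

open Classical in
/-- the element with `t` in coordinate `1` and top component `h` -/
noncomputable def elt (t : T) (h : H) : T ≀ᵣ H := ⟨Pi.mulSingle 1 t, h⟩

lemma elt_right (t : T) (h : H) : (elt t h).right = h := rfl

lemma elt_left_one (t : T) (h : H) : (elt t h).left 1 = t := by simp [elt]

lemma elt_left_ne (t : T) (h : H) {x : H} (hx : x ≠ 1) : (elt t h).left x = 1 := by
  classical
  simp only [elt]
  convert Pi.mulSingle_eq_of_ne (M := fun _ : H => T) hx t

lemma elt_pow_left (t : T) (h : H) (n : ℕ) (hn : n < orderOf h) :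
    (elt t h ^ (n + 1)).left 1 = t := by
  induction n with
  | zero => simpa using elt_left_one t h
  | succ n ih =>
    rw [pow_succ, mul_left, Pi.mul_apply, ih (by omega), pow_right, elt_right, elt_left_ne, mul_one]
    rw [mul_one, ne_eq, inv_eq_one]
    exact pow_ne_one_of_lt_orderOf (by omega) hn

lemma elt_pow_mul [Finite H] (t : T) (h : H) (m : ℕ) :
    (elt t h ^ (orderOf h * m)).left 1 = t ^ m ∧ (elt t h ^ (orderOf h * m)).right = 1 := by
  have h0 : 0 < orderOf h := orderOf_pos h
  have h1 : (elt t h ^ orderOf h).right = 1 := by rw [pow_right, elt_right, pow_orderOf_eq_one]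
  have h2 : (elt t h ^ orderOf h).left 1 = t := by
    have := elt_pow_left t h (orderOf h - 1) (by omega)
    rwa [Nat.sub_add_cancel h0] at this
  rw [pow_mul]
  have := pow_left_of_right_eq_one h1 m 1
  rwa [h2] at this

lemma order_dvd_of_elt_pow [Finite H] [Finite T] (t : T) (h : H) {n : ℕ} (hn : elt t h ^ n = 1) :
    orderOf h * orderOf t ∣ n := by
  have h1 : orderOf h ∣ n := by
    apply orderOf_dvd_of_pow_eq_one
    have := pow_right (elt t h) n
    rw [hn, elt_right] at this
    exact this.symm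
  obtain ⟨m, rfl⟩ := h1
  apply Nat.mul_dvd_mul_left
  apply orderOf_dvd_of_pow_eq_one
  rw [← (elt_pow_mul t h m).1, hn]; rfl

/-- diagonal embedding of the bottom group -/
def diag : T →* T ≀ᵣ H where
  toFun t := ⟨fun _ => t, 1⟩
  map_one' := rfl
  map_mul' a b := by ext <;> simp

lemma diag_injective : Injective (diag : T →* T ≀ᵣ H) := by
  intro a b h
  exact congrArg (fun w : T ≀ᵣ H => w.left 1) h

lemma isPGroup_wreath {p : ℕ} [Fact p.Prime] [Finite T] [Finite H] (hT : IsPGroup p T)
    (hH : IsPGroup p H) : IsPGroup p (T ≀ᵣ H) := by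
  obtain ⟨a, ha⟩ := IsPGroup.iff_card.mp hT
  obtain ⟨b, hb⟩ := IsPGroup.iff_card.mp hH
  refine IsPGroup.of_card (n := a * Nat.card H + b) ?_
  rw [RegularWreathProduct.card, ha, ← pow_mul, pow_add, ← hb]

end wreath

variable {A B F : GroupClass}

lemma mul_inv_cancel_comm_assoc' {W : Type} [Group W] (p : W) : p * p⁻¹ * p = p := by simp

/-- supplements of an abelian normal subgroup stay in the formation -/
lemma supplement (hB : IsFormation B) {W H : Type} [Group W] [Finite W] [Group H]
    (π : W →* H) (hcomm : ∀ a b, π a = 1 → π b = 1 → a * b = b * a) (hW : B W)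
    (P : Subgroup W) (hP : ∀ w, ∃ p ∈ P, π p = π w) : B P := by
  let Fib : Subgroup (W × W × W) :=
    { carrier := {x | π x.1 = π x.2.1 ∧ π x.2.1 = π x.2.2}
      mul_mem' := by
        rintro a b ⟨h1, h2⟩ ⟨h3, h4⟩
        simp [h1, h2, h3, h4]
      one_mem' := by simp
      inv_mem' := by
        rintro a ⟨h1, h2⟩
        simp [h1, h2] }
  let μ : Fib →* W :=
    { toFun := fun x => x.1.1 * x.1.2.1⁻¹ * x.1.2.2
      map_one' := by simp
      map_mul' := by
        rintro ⟨⟨a, b, c⟩, h1, h2⟩ ⟨⟨a', b', c'⟩, h3, h4⟩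
        simp only at h1 h2 h3 h4
        have := hcomm (a' * b'⁻¹) (b⁻¹ * c) (by simp [h3]) (by simp [h2])
        change a * a' * (b * b')⁻¹ * (c * c') = a * b⁻¹ * c * (a' * b'⁻¹ * c')
        calc a * a' * (b * b')⁻¹ * (c * c') = a * (a' * b'⁻¹ * (b⁻¹ * c)) * c' := by group
          _ = a * (b⁻¹ * c * (a' * b'⁻¹)) * c' := by rw [this]
          _ = _ := by group }
  let E : Subgroup Fib := P.comap μ
  let ι : E →* W × W × W := Fib.subtype.comp E.subtype
  have hE : B E := by
    refine hB.subdirect (ι := Fin 3) (H := fun _ => W)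
      ![(MonoidHom.fst _ _).comp ι, (MonoidHom.fst _ _).comp ((MonoidHom.snd _ _).comp ι),
        (MonoidHom.snd _ _).comp ((MonoidHom.snd _ _).comp ι)] ?_ (fun _ => hW) ?_
    · intro i w
      obtain ⟨p, hp, hpw⟩ := hP w
      fin_cases i
      · exact ⟨⟨⟨(w, w, p), rfl, hpw.symm⟩, by simpa [E, μ] using hp⟩, rfl⟩
      · exact ⟨⟨⟨(w, w, p), rfl, hpw.symm⟩, by simpa [E, μ] using hp⟩, rfl⟩
      · exact ⟨⟨⟨(p, w, w), hpw, rfl⟩, by simpa [E, μ] using hp⟩, rfl⟩
    · intro g hg
      have h0 := hg 0
      have h1 := hg 1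
      have h2 := hg 2
      exact Subtype.ext (Subtype.ext (Prod.ext h0 (Prod.ext h1 h2)))
  refine hB.surj ((μ.comp E.subtype).codRestrict P (fun x => x.2)) ?_ hE
  rintro ⟨p, hp⟩
  exact ⟨⟨⟨(p, p, p), rfl, rfl⟩, by simpa [E, μ] using hp⟩, Subtype.ext (mul_inv_cancel_comm_assoc' p)⟩

/-- If `C ≀ (G/G^B)` lies in `B` then the residual has no nontrivial homomorphism to `C`. -/
lemma hom_trivial (hB : IsFormation B) {G C : Type} [Group G] [Finite G] [CommGroup C] [Finite C]
    (R : Subgroup G) [hRn : R.Normal] (hR : R ≤ residual B G)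
    (hW : B (C ≀ᵣ (G ⧸ R))) (φ : R →* C) (r : R) : φ r = 1 := by
  let s : G ⧸ R → G := Quotient.out
  have hs : ∀ x, (s x : G ⧸ R) = x := fun x => QuotientGroup.out_eq' x
  have mem : ∀ (g : G) (x : G ⧸ R), (s x)⁻¹ * g * s ((g : G ⧸ R)⁻¹ * x) ∈ R := by
    intro g x
    rw [← QuotientGroup.eq_one_iff]
    simp [hs]
  let Φ : G →* C ≀ᵣ (G ⧸ R) :=
    { toFun := fun g => ⟨fun x => φ ⟨_, mem g x⟩, g⟩
      map_one' := by
        ext x
        · simp only [one_left, Pi.one_apply]
          rw [← map_one φ]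
          congr 1
          apply Subtype.ext
          simp
        · simp
      map_mul' := by
        intro a b
        ext x
        · simp only [mul_left, Pi.mul_apply]
          rw [← map_mul]
          congr 1
          apply Subtype.ext
          simp [mul_assoc]
        · simp }
  have hP : B Φ.range := by
    refine supplement hB (rightHom : C ≀ᵣ (G ⧸ R) →* G ⧸ R) ?_ hW _ ?_
    · intro a b ha hb
      simp only [rightHom_eq_right] at ha hb
      ext x
      · simp [ha, hb, mul_comm]
      · simp [ha, hb]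
    · intro w
      exact ⟨Φ (s w.right), ⟨_, rfl⟩, hs _⟩
  have hle := hB.residual_le_ker Φ.rangeRestrict Φ.rangeRestrict_surjective hP
  have hmem : s 1 * r * (s 1)⁻¹ ∈ R := hRn.conj_mem _ r.2 _
  have h1 : Φ (s 1 * r * (s 1)⁻¹) = 1 := by
    have := hle (hR hmem)
    rw [MonoidHom.ker_rangeRestrict] at this
    exact this
  have h2 := congrArg (fun w : C ≀ᵣ (G ⧸ R) => w.left 1) h1
  simp only [Φ, MonoidHom.coe_mk, OneHom.coe_mk, one_left, Pi.one_apply] at h2
  rw [← h2]
  congr 1
  apply Subtype.ext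
  have h3 : ((s 1 * r * (s 1)⁻¹ : G) : G ⧸ R) = 1 := (QuotientGroup.eq_one_iff _).mpr hmem
  simp only [h3]
  simp [mul_assoc]

lemma residual_wreath_right (hB : IsFormation B) {T H : Type} [Group T] [Finite T] [Group H]
    [Finite H] (hH : B H) : ∀ d ∈ residual B (T ≀ᵣ H), d.right = 1 :=
  fun _ hd => hB.residual_le_ker rightHom rightHom_surjective hH hd

/-- The wreath product test. -/
lemma wreath_test (hA : IsFormation A) (hB : IsFormation B) {T H : Type} [Group T] [Finite T]
    [Group H] [Finite H] (hH : B H)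
    (hno : ∀ (T' : Type) [Group T'] [Finite T'] [Nontrivial T'] (f : T →* T'), Surjective f →
      ¬ B (T' ≀ᵣ H)) : A T ↔ A (residual B (T ≀ᵣ H)) := by
  have hD := residual_wreath_right (T := T) hB hH
  have hN := residual_normal B (T ≀ᵣ H)
  set D := residual B (T ≀ᵣ H) with hDdef
  have shift : ∀ d ∈ D, ∀ x y : H, ∃ d' ∈ D, d'.left y = d.left x := by
    intro d hd x y
    refine ⟨_, hN.conj_mem d hd (inl (y * x⁻¹)), ?_⟩
    simp [hD d hd]
  have hT1 : (coord D hD 1).range.Normal := by
    constructor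
    rintro _ ⟨d, rfl⟩ t
    refine ⟨⟨_, hN.conj_mem d.1 d.2 (diag t)⟩, ?_⟩
    simp [coord, diag]
  have htop : (coord D hD 1).range = ⊤ := by
    by_contra hne
    have : Nontrivial (T ⧸ (coord D hD 1).range) := QuotientGroup.nontrivial_iff.mpr hne
    apply hno _ (QuotientGroup.mk' (coord D hD 1).range) (QuotientGroup.mk'_surjective _)
    refine hB.of_residual_le_ker (mapLeft (QuotientGroup.mk' _))
      (mapLeft_surjective (QuotientGroup.mk'_surjective _)) ?_
    intro d hd
    rw [MonoidHom.mem_ker]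
    ext x
    · obtain ⟨d', hd', e⟩ := shift d hd x 1
      exact (QuotientGroup.eq_one_iff _).mpr ⟨⟨d', hd'⟩, e⟩
    · exact hD d hd
  have hsurj : ∀ x, Surjective (coord D hD x) := by
    intro x t
    obtain ⟨d, hd⟩ := MonoidHom.range_eq_top.mp htop t
    obtain ⟨d', hd', e⟩ := shift d.1 d.2 1 x
    exact ⟨⟨d', hd'⟩, e.trans hd⟩
  constructor
  · intro h
    refine hA.subdirect (H := fun _ : H => T) (coord D hD) hsurj (fun _ => h) ?_
    intro g hg
    apply Subtype.ext
    ext x
    · exact hg x
    · exact hD g.1 g.2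
  · exact hA.surj (coord D hD 1) (hsurj 1)

end Pool.Agent.P.MP_58728c_al
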